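import Pool.Agent.N443.K54.Dat

/-! The checks. -/

set_option autoImplicit false
set_option maxRecDepth 100000
set_option maxHeartbeats 4000000

namespace Pool.Agent.N443.K54

open Pool.Agent.Y435.T7 (al st)

theorem ckI0 : al 31 (fun m => st (ckI PT0 0) m) = true := by decide +kernel
theorem ckI1 : al 31 (fun m => st (ckI PT1 1) m) = true := by decide +kernel
theorem ckI2 : al 31 (fun m => st (ckI PT2 2) m) = true := by decide +kernel
theorem ckI3 : al 31 (fun m => st (ckI PT3 3) m) = true := by decide +kernel
theorem ckM_ok : al 31 (fun m => st ckM m) = true := by decide +kernel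
theorem ckV_ok : al 32 (fun m => st ckV m) = true := by decide +kernel
theorem PF31 : Nat.beq (st PF 31) 0 = true := by decide +kernel

end Pool.Agent.N443.K54
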