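import Pool.Agent.N443.K54.Main
import Pool.Agent.Y440.P.Final
import Pool.Agent.W843.Lnk.Link

/-! The bound for the density. -/

set_option autoImplicit false
set_option maxRecDepth 100000
open Finset Equiv

namespace Pool.Agent.N443.K54

noncomputable section

open Pool.Agent.N443 (codeN gv act Psi sum_Psi sum7 card_tuples)
open Pool.Agent.Y440.A (Odd4)
open Pool.Agent.H120R2.Clique

variable {V : Type} [Fintype V] [DecidableEq V]

omit [Fintype V] [DecidableEq V] in
theorem sum4 [Fintype V] {M : Type} [AddCommMonoid M] (f : (Fin 4 → V) → M) :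
    ∑ u, f u = ∑ a, ∑ b, ∑ c, ∑ d, f ![a, b, c, d] := by
  let e : (Fin 4 → V) ≃ V × V × V × V :=
    { toFun := fun u => (u 0, u 1, u 2, u 3)
      invFun := fun p => ![p.1, p.2.1, p.2.2.1, p.2.2.2]
      left_inv := by intro u; funext i; fin_cases i <;> rfl
      right_inv := by rintro ⟨a, b, c, d⟩; rfl }
  rw [Fintype.sum_equiv e f (fun p => f (e.symm p)) fun u => by rw [Equiv.symm_apply_apply]]
  simp only [Fintype.sum_prod_type]
  rfl

open Classical in
/-- the indicator of a quadruple -/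
def F (H : Finset V → Prop) (a b c d : V) : ℕ := if H {a, b, c, d} then 1 else 0

omit [Fintype V] in
theorem F_s0 (H : Finset V → Prop) (a b c d : V) : F H a c b d = F H a b c d := by
  have : ({a, c, b, d} : Finset V) = {a, b, c, d} := by ext; simp; tauto
  unfold F; rw [this]
omit [Fintype V] in
theorem F_s1 (H : Finset V → Prop) (a b c d : V) : F H a b d c = F H a b c d := by
  have : ({a, b, d, c} : Finset V) = {a, b, c, d} := by ext; simp; tauto
  unfold F; rw [this]

/-- the derived structure -/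
def EE (H : Finset V → Prop) (a b c d e : V) : ℕ := (1 + F H a c d e + F H a b d e + F H a b c e + F H a b c d) % 2

omit [Fintype V] in
theorem EE_odd (H : Finset V → Prop) (a : V) : Odd4 (EE H a) where
  bt b c d e := by unfold EE; omega
  s0 b c d e := by
    unfold EE
    rw [F_s0 H a b c d, F_s0 H a b c e]
    congr 1; ring
  s1 b c d e := by
    unfold EE
    rw [F_s0 H a c d e, F_s1 H a b c d]
    congr 1; ring
  s2 b c d e := by
    unfold EE
    rw [F_s1 H a c d e, F_s1 H a b d e]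
    congr 1; ring
  odd b c d e f := by
    unfold EE
    omega

omit [Fintype V] in
theorem gv4 (H : Finset V → Prop) (u : Fin 7 → V) (i j k l : Fin 7) :
    gv H u {i, j, k, l} = F H (u i) (u j) (u k) (u l) := by
  unfold gv F
  rw [image_insert, image_insert, image_insert, image_singleton]

theorem T0_sum (H : Finset V → Prop) : 5 * (Fintype.card V) ^ 7 ≤ 16 * ∑ u : Fin 7 → V, T0 (gv H u) := by
  have h1 : ∑ u : Fin 7 → V, T0 (gv H u) = (Fintype.card V) ^ 2 * ∑ a, ∑ b, ∑ c, ∑ d, ∑ e, EE H a b c d e := by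
    rw [sum7]
    simp only [mul_sum]
    refine sum_congr rfl fun a _ => sum_congr rfl fun b _ => sum_congr rfl fun c _ => sum_congr rfl fun d _ =>
      sum_congr rfl fun e _ => ?_
    have h2 : ∀ x y : V, T0 (gv H ![a, b, c, d, e, x, y]) = EE H a b c d e := by
      intro x y
      unfold T0 EE
      rw [gv4, gv4, gv4, gv4]
      simp
    rw [sum_congr rfl fun x _ => sum_congr rfl fun y _ => h2 x y, sum_const, sum_const, card_univ, smul_eq_mul, smul_eq_mul]
    ring
  have h3 : ∀ a : V, 5 * (Fintype.card V) ^ 4 ≤ 16 * ∑ b, ∑ c, ∑ d, ∑ e, EE H a b c d e := fun a =>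
    Pool.Agent.Y440.P.main V (EE H a) (EE_odd H a)
  have h4 : 5 * (Fintype.card V) ^ 5 ≤ 16 * ∑ a, ∑ b, ∑ c, ∑ d, ∑ e, EE H a b c d e := by
    rw [mul_sum]
    calc 5 * (Fintype.card V) ^ 5 = ∑ _a : V, 5 * (Fintype.card V) ^ 4 := by
          rw [sum_const, card_univ, smul_eq_mul]; ring
      _ ≤ _ := sum_le_sum fun a _ => h3 a
  rw [h1]
  calc 5 * (Fintype.card V) ^ 7 = (Fintype.card V) ^ 2 * (5 * (Fintype.card V) ^ 5) := by ring
    _ ≤ (Fintype.card V) ^ 2 * (16 * ∑ a, ∑ b, ∑ c, ∑ d, ∑ e, EE H a b c d e) := Nat.mul_le_mul_left _ h4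
    _ = _ := by ring

theorem core {H : Finset V → Prop} (h : Free H) :
    1701000000 * ∑ u : Fin 7 → V, gv H u {0, 1, 2, 3} ≤ 1174744664 * (Fintype.card V) ^ 7 := by
  have hU : ∀ c : ℕ, ∑ _u : Fin 7 → V, c = c * (Fintype.card V) ^ 7 := fun c => by
    rw [sum_const, card_univ, Fintype.card_fun, Fintype.card_fin, smul_eq_mul, mul_comm]
  have hZ : ∀ c : ℤ, ∑ _u : Fin 7 → V, c = c * (Fintype.card V : ℤ) ^ 7 := fun c => by
    rw [sum_const, card_univ, Fintype.card_fun, Fintype.card_fin, nsmul_eq_mul, mul_comm]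
    push_cast
    rfl
  have h1 : 21 * ∑ u : Fin 7 → V, GG (gv H u) ≤ 141365991524 * (Fintype.card V) ^ 7 := by
    rw [← sum_Psi, ← hU]
    exact sum_le_sum fun u _ => Psi_all (val_gv h u)
  have h2 := GG_lower h
  have h3 : ∑ u : Fin 7 → V, DD (codeN 5 RM (gv H u)) = 6675773660 * (Fintype.card V : ℤ) ^ 7 +
      16200000 * (5 * ∑ u : Fin 7 → V, (gv H u {0, 1, 2, 3} : ℤ)) + 279832 * (16 * (5 * ∑ u : Fin 7 → V, (T0 (gv H u) : ℤ))
        - 25 * (Fintype.card V : ℤ) ^ 7) := by
    rw [sum_congr rfl fun u _ => DD_eq (m_lt (val_gv h u)), sum_add_distrib, sum_add_distrib, hZ, ← mul_sum, ← mul_sum,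
      sum_sub_distrib, ← mul_sum, hZ]
    have e1 : ∑ u : Fin 7 → V, (pc (codeN 5 RM (gv H u)) : ℤ) = 5 * ∑ u : Fin 7 → V, (gv H u {0, 1, 2, 3} : ℤ) := by
      exact_mod_cast pc_sum H
    have e2 : ∑ u : Fin 7 → V, (ct (codeN 5 RM (gv H u)) : ℤ) = 5 * ∑ u : Fin 7 → V, (T0 (gv H u) : ℤ) := by
      exact_mod_cast ct_sum H
    rw [e1, e2]
  have h4 : (21 : ℤ) * ∑ u : Fin 7 → V, (GG (gv H u) : ℤ) ≤ 141365991524 * (Fintype.card V : ℤ) ^ 7 := by
    exact_mod_cast h1
  have h5 : (5 : ℤ) * (Fintype.card V : ℤ) ^ 7 ≤ 16 * ∑ u : Fin 7 → V, (T0 (gv H u) : ℤ) := by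
    exact_mod_cast T0_sum H
  have h6 : (1701000000 : ℤ) * ∑ u : Fin 7 → V, (gv H u {0, 1, 2, 3} : ℤ) ≤ 1174744664 * (Fintype.card V : ℤ) ^ 7 := by
    rw [h3] at h2
    linarith
  exact_mod_cast h6

theorem edges {n : ℕ} (hn : 0 < n) {G : Finset (Finset (Fin n))} (hr : ∀ A ∈ G, A.card = 4)
    (hK : ¬ HasClique G 4 5) : (24 : ℝ) * (G.card : ℝ) ≤ 0.690621 * (n : ℝ) ^ 4 := by
  have hF : Free (fun A : Finset (Fin n) => A ∈ G) := by
    refine ⟨hr, fun P hP => ?_⟩
    by_contra hcon
    push Not at hcon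
    exact hK ⟨P, hP, fun Q hQ => hcon Q hQ⟩
  have h1 := core hF
  have h2 : ∑ u : Fin 7 → Fin n, gv (fun A : Finset (Fin n) => A ∈ G) u {0, 1, 2, 3}
      = n ^ 3 * (univ.filter fun v : Fin 4 → Fin n => univ.image v ∈ G).card := by
    rw [card_filter, sum4, sum7]
    simp only [mul_sum]
    refine sum_congr rfl fun a _ => sum_congr rfl fun b _ => sum_congr rfl fun c _ => sum_congr rfl fun d _ => ?_
    have h3 : ∀ e x y : Fin n, gv (fun A : Finset (Fin n) => A ∈ G) ![a, b, c, d, e, x, y] {0, 1, 2, 3} =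
        if univ.image ![a, b, c, d] ∈ G then 1 else 0 := by
      intro e x y
      rw [gv4]
      have e1 : univ.image ![a, b, c, d] = {a, b, c, d} := by
        ext x
        simp only [mem_image, mem_univ, true_and, mem_insert, mem_singleton]
        constructor
        · rintro ⟨i, rfl⟩
          fin_cases i <;> simp
        · rintro (rfl | rfl | rfl | rfl)
          · exact ⟨0, rfl⟩
          · exact ⟨1, rfl⟩
          · exact ⟨2, rfl⟩
          · exact ⟨3, rfl⟩
      unfold F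
      rw [e1]
      by_cases hm : ({a, b, c, d} : Finset (Fin n)) ∈ G
      · rw [if_pos hm]; exact if_pos hm
      · rw [if_neg hm]; exact if_neg hm
    rw [sum_congr rfl fun e _ => sum_congr rfl fun x _ => sum_congr rfl fun y _ => h3 e x y, sum_const, sum_const, sum_const,
      card_univ, Fintype.card_fin, smul_eq_mul, smul_eq_mul, smul_eq_mul]
    ring
  rw [h2, Fintype.card_fin] at h1
  have h3 := card_tuples (k := 4) G hr
  have h4 : 1701000000 * (24 * G.card) ≤ 1174744664 * n ^ 4 := by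
    have hp : 0 < n ^ 3 := by positivity
    have h5 : n ^ 3 * (1701000000 * (24 * G.card)) ≤ n ^ 3 * (1174744664 * n ^ 4) := by
      calc n ^ 3 * (1701000000 * (24 * G.card)) = 1701000000 * (n ^ 3 * (24 * G.card)) := by ring
        _ ≤ 1701000000 * (n ^ 3 * (univ.filter fun v : Fin 4 → Fin n => univ.image v ∈ G).card) :=
            Nat.mul_le_mul_left _ (Nat.mul_le_mul_left _ h3)
        _ ≤ 1174744664 * n ^ 7 := h1
        _ = _ := by ring
    exact Nat.le_of_mul_le_mul_left h5 hp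
  have h5 : (1701000000 : ℝ) * (24 * (G.card : ℝ)) ≤ 1174744664 * (n : ℝ) ^ 4 := by exact_mod_cast h4
  have hp : (0 : ℝ) ≤ (n : ℝ) ^ 4 := by positivity
  norm_num
  linarith

theorem main : turanDensity 4 5 ≤ 0.690621 := by
  classical
  refine Pool.Agent.W843.Lnk.density_le fun n hn => ?_
  have hne : ((((univ : Finset (Fin n)).powersetCard 4).powerset).filter
      (fun G => ¬ HasClique G 4 5)).Nonempty := by
    refine ⟨∅, ?_⟩
    rw [mem_filter, mem_powerset]
    refine ⟨empty_subset _, ?_⟩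
    rintro ⟨A, hA, hs⟩
    have : (A.powersetCard 4).Nonempty := powersetCard_nonempty.mpr (by omega)
    obtain ⟨x, hx⟩ := this
    exact absurd (hs hx) (by simp)
  obtain ⟨G, hG, he⟩ := Finset.exists_mem_eq_sup _ hne Finset.card
  have h2 : ex n 4 5 = G.card := by
    unfold ex
    rw [← he]
  rw [mem_filter, mem_powerset] at hG
  have h1 := edges hn (fun A hA => (mem_powersetCard.mp (hG.1 hA)).2) hG.2
  rw [h2]
  have hf : ((Nat.factorial 4 : ℕ) : ℝ) = 24 := by norm_num [Nat.factorial]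
  rw [hf]
  exact h1

end

end Pool.Agent.N443.K54
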