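import Pool.Agent.N443.K54.Chk

/-! Columns of the table and their symmetry. -/

set_option autoImplicit false
set_option maxRecDepth 100000
set_option exponentiation.threshold 3000000
open Finset Equiv

namespace Pool.Agent.N443.K54

noncomputable section

open Pool.Agent.Y435.T7 (bt sb st cnd al d2 swp as2 as4 enc fld enc_congr enc_zero enc_succ enc_lt enc_add enc_mulc
  enc_prod enc_nest enc_testBit fld_testBit fld_lt fld_enc enc_fld fld_fld enc_inj land_ones swp_enc sb_lt bt01)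
open Pool.Agent.N443 (st_eq al_true cnd_and enc_const_succ enc_rep osum osum_eq mkN mkN_congr mkN_bt mkN_add mkN_lt bt_mkN
  sb_mkN sx codeN act bt_le encLand ltLand)

/-- bounds -/
def CMAX : ℕ := 6541803060
def DM : ℕ := 33324928865

/-- numbers with one entry for each flag -/
def E2 (φ : ℕ → ℕ) : ℕ := enc 163840 4 (fun j => enc 640 6 (fun y => φ (y + 64 * j)))

theorem E2_lt {φ : ℕ → ℕ} (h : ∀ f < 1024, φ f < 2 ^ 640) (j : ℕ) (hj : j < 2 ^ 4) : enc 640 6 (fun y => φ (y + 64 * j)) < 2 ^ 163840 :=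
  lt_of_lt_of_le (enc_lt (s := 640) (n := 6) fun y hy => h _ (by
    have hy' : y < 64 := hy
    have hj' : j < 16 := hj
    omega)) (Nat.pow_le_pow_right (by norm_num) (by norm_num))

theorem E2_congr {φ ψ : ℕ → ℕ} (h : ∀ f < 1024, φ f = ψ f) : E2 φ = E2 ψ :=
  enc_congr fun j hj => enc_congr fun y hy => h _ (by
    have hy' : y < 64 := hy
    have hj' : j < 16 := hj
    omega)

theorem E2_inj {φ ψ : ℕ → ℕ} (hφ : ∀ f < 1024, φ f < 2 ^ 640) (hψ : ∀ f < 1024, ψ f < 2 ^ 640) (h : E2 φ = E2 ψ)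
    {f : ℕ} (hf : f < 1024) : φ f = ψ f := by
  have hj : f / 64 < 2 ^ 4 := by norm_num; omega
  have hy : f % 64 < 2 ^ 6 := Nat.mod_lt _ (by norm_num)
  have h1 := enc_inj (s := 163840) (n := 4) (by norm_num) (E2_lt hφ) (E2_lt hψ) h hj
  have h2 := enc_inj (s := 640) (n := 6) (by norm_num) (fun y hy => hφ _ (by
      have hy' : y < 64 := hy
      have hj' : f / 64 < 16 := hj
      omega)) (fun y hy => hψ _ (by
      have hy' : y < 64 := hy
      have hj' : f / 64 < 16 := hj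
      omega)) h1 hy
  have e : f % 64 + 64 * (f / 64) = f := Nat.mod_add_div f 64
  simpa only [e] using h2

theorem E2_add (φ ψ : ℕ → ℕ) : E2 φ + E2 ψ = E2 (fun f => φ f + ψ f) := by
  unfold E2
  rw [enc_add]
  exact enc_congr fun j _ => by rw [enc_add]

theorem E2_mulc (φ : ℕ → ℕ) (c : ℕ) : c * E2 φ = E2 (fun f => c * φ f) := by
  unfold E2
  rw [mul_comm, enc_mulc]
  refine enc_congr fun j _ => ?_
  rw [enc_mulc]
  exact enc_congr fun y _ => mul_comm _ _

theorem E2_zero : E2 (fun _ => 0) = 0 := by simp [E2, enc]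

/-- position of the entry of a flag and a column -/
def ix (f k : ℕ) : ℕ := k % 16 + 1024 * (k / 16) + 16 * (f % 64) + 4096 * (f / 64)

theorem uu_PF (m : ℕ) {f k : ℕ} (hk : k < 64) : uu m f k = fld 40 (PF m) (ix f k) := by
  unfold uu dg
  rw [XB_eq]
  have h := fld_fld (s := 40) (k := 12) (PF m) (f / 64) (k % 16 + 1024 * (k / 16) + 16 * (f % 64)) (by norm_num; omega)
  refine Eq.trans h ?_
  congr 1
  unfold ix
  ring

theorem MKC_eq : MKC = enc 163840 4 (fun _ => enc 640 6 (fun _ => 2 ^ 40 - 1)) := by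
  rw [enc_const_succ, enc_const_succ, enc_const_succ, enc_const_succ, enc_zero, ← MK64_eq]; rfl

theorem CM_eq (X k : ℕ) : CM X k = E2 (fun f => fld 40 X (ix f k)) := by
  unfold CM
  rw [MKC_eq]
  have e0 : Nat.mul 40 (Nat.add (Nat.mod k 16) (Nat.mul 1024 (Nat.div k 16))) = 40 * (k % 16 + 1024 * (k / 16)) := rfl
  rw [e0]
  set a := k % 16 + 1024 * (k / 16) with ha
  have h40 : ∀ i < 2 ^ 6, (fun _ : ℕ => 2 ^ 40 - 1) i < 2 ^ 640 := fun i _ =>
    lt_of_lt_of_le (Nat.sub_lt (by positivity) one_pos) (Nat.pow_le_pow_right (by norm_num) (by norm_num))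
  have hM : ∀ i < 2 ^ 4, (fun _ : ℕ => enc 640 6 (fun _ => 2 ^ 40 - 1)) i < 2 ^ 163840 := fun i _ =>
    lt_of_lt_of_le (enc_lt (s := 640) (n := 6) h40) (Nat.pow_le_pow_right (by norm_num) (by norm_num))
  have hφ : ∀ f < 1024, (fun f => fld 40 X (ix f k)) f < 2 ^ 640 := fun f _ =>
    lt_of_lt_of_le (fld_lt _ _ _) (Nat.pow_le_pow_right (by norm_num) (by norm_num))
  refine Nat.eq_of_testBit_eq fun t => ?_
  show ((X >>> (40 * a)) &&& _).testBit t = (E2 _).testBit t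
  unfold E2
  rw [Nat.testBit_and, Nat.testBit_shiftRight, enc_testBit (by norm_num) hM, enc_testBit (by norm_num) (E2_lt hφ),
    enc_testBit (by norm_num) h40, Nat.testBit_two_pow_sub_one]
  by_cases h1 : t / 163840 < 2 ^ 4
  · rw [enc_testBit (by norm_num) (fun y hy => hφ _ (by
      have hy' : y < 64 := hy
      have hj' : t / 163840 < 16 := h1
      omega)), fld_testBit]
    by_cases h2 : t % 163840 / 640 < 2 ^ 6
    · have h2' : t % 163840 / 640 < 64 := h2
      have e : 40 * a + t = t % 163840 % 640 + 40 * (ix (t % 163840 / 640 + 64 * (t / 163840)) k) := by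
        unfold ix
        have e1 : (t % 163840 / 640 + 64 * (t / 163840)) % 64 = t % 163840 / 640 := by omega
        have e2 : (t % 163840 / 640 + 64 * (t / 163840)) / 64 = t / 163840 := by omega
        rw [e1, e2, ← ha]
        omega
      rw [e]
      generalize X.testBit _ = u
      cases decide (t / 163840 < 2 ^ 4) <;> cases decide (t % 163840 / 640 < 2 ^ 6) <;> cases decide (t % 163840 % 640 < 40) <;> cases u <;> rfl
    · rw [decide_eq_false h2]
      simp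
  · rw [decide_eq_false h1]
    simp

theorem CM_PF (m : ℕ) {k : ℕ} (hk : k < 64) : CM (PF m) k = E2 (fun f => uu m f k) := by
  rw [CM_eq]
  exact E2_congr fun f _ => (uu_PF m hk).symm

theorem uu_lt (m f k : ℕ) : uu m f k < 2 ^ 40 := fld_lt _ _ _
theorem uu_lt' (m f k : ℕ) : uu m f k < 2 ^ 640 := lt_of_lt_of_le (uu_lt m f k) (Nat.pow_le_pow_right (by norm_num) (by norm_num))

/-- bits of the position of an entry -/
def ib (a b : ℕ → ℕ) (j : ℕ) : ℕ := if j < 4 then b j else if j < 10 then a (j - 4) else if j < 12 then b (j - 6) else a (j - 6)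

theorem ix_mk {a b : ℕ → ℕ} (ha : ∀ j, a j ≤ 1) (hb : ∀ j, b j ≤ 1) : ix (mkN 10 a) (mkN 6 b) = mkN 16 (ib a b) := by
  have h1 : mkN 10 a % 64 = mkN 6 a := Pool.Agent.N443.mkN_mod (k := 6) (by norm_num) ha
  have h2 : mkN 10 a / 64 = mkN 4 (fun j => a (j + 6)) := Pool.Agent.N443.mkN_div (k := 6) (by norm_num) ha
  have h3 : mkN 6 b % 16 = mkN 4 b := Pool.Agent.N443.mkN_mod (k := 4) (by norm_num) hb
  have h4 : mkN 6 b / 16 = mkN 2 (fun j => b (j + 4)) := Pool.Agent.N443.mkN_div (k := 4) (by norm_num) hb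
  unfold ix
  rw [h1, h2, h3, h4]
  simp only [mkN, sum_range_succ, sum_range_zero, ib]
  norm_num
  ring

theorem ib_le {a b : ℕ → ℕ} (ha : ∀ j, a j ≤ 1) (hb : ∀ j, b j ≤ 1) (j : ℕ) : ib a b j ≤ 1 := by
  unfold ib; split_ifs <;> first | exact ha _ | exact hb _

theorem pf_lt {p q f : ℕ} (h : p < q) (hq : q < 10) (hf : f < 1024) : sb p q f < 1024 := sb_lt (n := 10) h hq hf

/-- exchange of bits of the flag in the position -/
theorem ix_sb {p q : ℕ} (hpq : p < q) (hq : q < 10) {f k : ℕ} (hf : f < 1024) (hk : k < 64) (p' q' : ℕ) (hpq' : p' < q') (hq' : q' < 16)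
    (h : ∀ j < 16, ∀ a b : ℕ → ℕ, ib a b (sx p' q' j) = ib (fun i => a (sx p q i)) b j) : sb p' q' (ix f k) = ix (sb p q f) k := by
  have e1 : mkN 10 (fun j => bt j f) = f := mkN_bt hf
  have e2 : mkN 6 (fun j => bt j k) = k := mkN_bt hk
  rw [← e1, ← e2, sb_mkN hpq hq fun j => bt_le _ _, ix_mk (fun j => bt_le _ _) (fun j => bt_le _ _),
    ix_mk (fun j => bt_le _ _) (fun j => bt_le _ _), sb_mkN hpq' hq' (ib_le (fun j => bt_le _ _) fun j => bt_le _ _)]
  exact mkN_congr fun j hj => h j hj _ _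

theorem swp16 {p q : ℕ} (h : p < q) (hq : q < 16) {F : ℕ → ℕ} (hF : ∀ i, F i < 2 ^ 40) :
    swp 40 16 p q (enc 40 16 F) = enc 40 16 (fun i => F (sb p q i)) := swp_enc (by norm_num) h hq fun i _ => hF i

theorem ixs_0_1 {f k : ℕ} (hf : f < 1024) (hk : k < 64) : sb 4 5 (ix f k) = ix (sb 0 1 f) k :=
  ix_sb (by norm_num) (by norm_num) hf hk 4 5 (by norm_num) (by norm_num) (by
    intro j hj a b
    interval_cases j <;> simp [ib, sx])
theorem ixs_1_2 {f k : ℕ} (hf : f < 1024) (hk : k < 64) : sb 5 6 (ix f k) = ix (sb 1 2 f) k :=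
  ix_sb (by norm_num) (by norm_num) hf hk 5 6 (by norm_num) (by norm_num) (by
    intro j hj a b
    interval_cases j <;> simp [ib, sx])
theorem ixs_1_3 {f k : ℕ} (hf : f < 1024) (hk : k < 64) : sb 5 7 (ix f k) = ix (sb 1 3 f) k :=
  ix_sb (by norm_num) (by norm_num) hf hk 5 7 (by norm_num) (by norm_num) (by
    intro j hj a b
    interval_cases j <;> simp [ib, sx])
theorem ixs_2_4 {f k : ℕ} (hf : f < 1024) (hk : k < 64) : sb 6 8 (ix f k) = ix (sb 2 4 f) k :=
  ix_sb (by norm_num) (by norm_num) hf hk 6 8 (by norm_num) (by norm_num) (by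
    intro j hj a b
    interval_cases j <;> simp [ib, sx])
theorem ixs_3_4 {f k : ℕ} (hf : f < 1024) (hk : k < 64) : sb 7 8 (ix f k) = ix (sb 3 4 f) k :=
  ix_sb (by norm_num) (by norm_num) hf hk 7 8 (by norm_num) (by norm_num) (by
    intro j hj a b
    interval_cases j <;> simp [ib, sx])
theorem ixs_3_6 {f k : ℕ} (hf : f < 1024) (hk : k < 64) : sb 7 12 (ix f k) = ix (sb 3 6 f) k :=
  ix_sb (by norm_num) (by norm_num) hf hk 7 12 (by norm_num) (by norm_num) (by
    intro j hj a b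
    interval_cases j <;> simp [ib, sx])
theorem ixs_4_5 {f k : ℕ} (hf : f < 1024) (hk : k < 64) : sb 8 9 (ix f k) = ix (sb 4 5 f) k :=
  ix_sb (by norm_num) (by norm_num) hf hk 8 9 (by norm_num) (by norm_num) (by
    intro j hj a b
    interval_cases j <;> simp [ib, sx])
theorem ixs_4_7 {f k : ℕ} (hf : f < 1024) (hk : k < 64) : sb 8 13 (ix f k) = ix (sb 4 7 f) k :=
  ix_sb (by norm_num) (by norm_num) hf hk 8 13 (by norm_num) (by norm_num) (by
    intro j hj a b
    interval_cases j <;> simp [ib, sx])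
theorem ixs_5_8 {f k : ℕ} (hf : f < 1024) (hk : k < 64) : sb 9 14 (ix f k) = ix (sb 5 8 f) k :=
  ix_sb (by norm_num) (by norm_num) hf hk 9 14 (by norm_num) (by norm_num) (by
    intro j hj a b
    interval_cases j <;> simp [ib, sx])
theorem ixs_6_7 {f k : ℕ} (hf : f < 1024) (hk : k < 64) : sb 12 13 (ix f k) = ix (sb 6 7 f) k :=
  ix_sb (by norm_num) (by norm_num) hf hk 12 13 (by norm_num) (by norm_num) (by
    intro j hj a b
    interval_cases j <;> simp [ib, sx])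
theorem ixs_7_8 {f k : ℕ} (hf : f < 1024) (hk : k < 64) : sb 13 14 (ix f k) = ix (sb 7 8 f) k :=
  ix_sb (by norm_num) (by norm_num) hf hk 13 14 (by norm_num) (by norm_num) (by
    intro j hj a b
    interval_cases j <;> simp [ib, sx])
theorem ixs_8_9 {f k : ℕ} (hf : f < 1024) (hk : k < 64) : sb 14 15 (ix f k) = ix (sb 8 9 f) k :=
  ix_sb (by norm_num) (by norm_num) hf hk 14 15 (by norm_num) (by norm_num) (by
    intro j hj a b
    interval_cases j <;> simp [ib, sx])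

theorem pf0_lt {f : ℕ} (hf : f < 1024) : pf0 f < 1024 :=
  (pf_lt (p := 1) (q := 2) (by norm_num) (by norm_num) (pf_lt (p := 3) (q := 4) (by norm_num) (by norm_num) (pf_lt (p := 6) (q := 7) (by norm_num) (by norm_num) hf)))

theorem PT0_eq {X : ℕ} (hX : X < 2 ^ (40 * 2 ^ 16)) {k : ℕ} (hk : k < 64) : CM (PT0 X) k = E2 (fun f => fld 40 X (ix (pf0 f) k)) := by
  have e : PT0 X = enc 40 16 (fun i => fld 40 X (sb 5 6 (sb 7 8 (sb 12 13 i)))) := by
    unfold PT0
    rw [← enc_fld (s := 40) (n := 16) (by norm_num) hX]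
    rw [swp16 (by norm_num) (by norm_num) fun i => fld_lt _ _ _, swp16 (by norm_num) (by norm_num) fun i => fld_lt _ _ _,
      swp16 (by norm_num) (by norm_num) fun i => fld_lt _ _ _, enc_fld (s := 40) (n := 16) (by norm_num) hX]
  rw [CM_eq, e]
  refine E2_congr fun f hf => ?_
  have hix : ix f k < 2 ^ 16 := by unfold ix; norm_num; omega
  rw [fld_enc (by norm_num) (fun i _ => fld_lt _ _ _) hix]
  have h3 := pf_lt (p := 6) (q := 7) (by norm_num) (by norm_num) hf
  have h2 := pf_lt (p := 3) (q := 4) (by norm_num) (by norm_num) h3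
  rw [ixs_6_7 hf hk, ixs_3_4 h3 hk, ixs_1_2 h2 hk]
  rfl

theorem pf1_lt {f : ℕ} (hf : f < 1024) : pf1 f < 1024 :=
  (pf_lt (p := 0) (q := 1) (by norm_num) (by norm_num) (pf_lt (p := 4) (q := 5) (by norm_num) (by norm_num) (pf_lt (p := 7) (q := 8) (by norm_num) (by norm_num) hf)))

theorem PT1_eq {X : ℕ} (hX : X < 2 ^ (40 * 2 ^ 16)) {k : ℕ} (hk : k < 64) : CM (PT1 X) k = E2 (fun f => fld 40 X (ix (pf1 f) k)) := by
  have e : PT1 X = enc 40 16 (fun i => fld 40 X (sb 4 5 (sb 8 9 (sb 13 14 i)))) := by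
    unfold PT1
    rw [← enc_fld (s := 40) (n := 16) (by norm_num) hX]
    rw [swp16 (by norm_num) (by norm_num) fun i => fld_lt _ _ _, swp16 (by norm_num) (by norm_num) fun i => fld_lt _ _ _,
      swp16 (by norm_num) (by norm_num) fun i => fld_lt _ _ _, enc_fld (s := 40) (n := 16) (by norm_num) hX]
  rw [CM_eq, e]
  refine E2_congr fun f hf => ?_
  have hix : ix f k < 2 ^ 16 := by unfold ix; norm_num; omega
  rw [fld_enc (by norm_num) (fun i _ => fld_lt _ _ _) hix]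
  have h3 := pf_lt (p := 7) (q := 8) (by norm_num) (by norm_num) hf
  have h2 := pf_lt (p := 4) (q := 5) (by norm_num) (by norm_num) h3
  rw [ixs_7_8 hf hk, ixs_4_5 h3 hk, ixs_0_1 h2 hk]
  rfl

theorem pf2_lt {f : ℕ} (hf : f < 1024) : pf2 f < 1024 :=
  (pf_lt (p := 1) (q := 3) (by norm_num) (by norm_num) (pf_lt (p := 2) (q := 4) (by norm_num) (by norm_num) (pf_lt (p := 8) (q := 9) (by norm_num) (by norm_num) hf)))

theorem PT2_eq {X : ℕ} (hX : X < 2 ^ (40 * 2 ^ 16)) {k : ℕ} (hk : k < 64) : CM (PT2 X) k = E2 (fun f => fld 40 X (ix (pf2 f) k)) := by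
  have e : PT2 X = enc 40 16 (fun i => fld 40 X (sb 5 7 (sb 6 8 (sb 14 15 i)))) := by
    unfold PT2
    rw [← enc_fld (s := 40) (n := 16) (by norm_num) hX]
    rw [swp16 (by norm_num) (by norm_num) fun i => fld_lt _ _ _, swp16 (by norm_num) (by norm_num) fun i => fld_lt _ _ _,
      swp16 (by norm_num) (by norm_num) fun i => fld_lt _ _ _, enc_fld (s := 40) (n := 16) (by norm_num) hX]
  rw [CM_eq, e]
  refine E2_congr fun f hf => ?_
  have hix : ix f k < 2 ^ 16 := by unfold ix; norm_num; omega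
  rw [fld_enc (by norm_num) (fun i _ => fld_lt _ _ _) hix]
  have h3 := pf_lt (p := 8) (q := 9) (by norm_num) (by norm_num) hf
  have h2 := pf_lt (p := 2) (q := 4) (by norm_num) (by norm_num) h3
  rw [ixs_8_9 hf hk, ixs_2_4 h3 hk, ixs_1_3 h2 hk]
  rfl

theorem pf3_lt {f : ℕ} (hf : f < 1024) : pf3 f < 1024 :=
  (pf_lt (p := 3) (q := 6) (by norm_num) (by norm_num) (pf_lt (p := 4) (q := 7) (by norm_num) (by norm_num) (pf_lt (p := 5) (q := 8) (by norm_num) (by norm_num) hf)))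

theorem PT3_eq {X : ℕ} (hX : X < 2 ^ (40 * 2 ^ 16)) {k : ℕ} (hk : k < 64) : CM (PT3 X) k = E2 (fun f => fld 40 X (ix (pf3 f) k)) := by
  have e : PT3 X = enc 40 16 (fun i => fld 40 X (sb 7 12 (sb 8 13 (sb 9 14 i)))) := by
    unfold PT3
    rw [← enc_fld (s := 40) (n := 16) (by norm_num) hX]
    rw [swp16 (by norm_num) (by norm_num) fun i => fld_lt _ _ _, swp16 (by norm_num) (by norm_num) fun i => fld_lt _ _ _,
      swp16 (by norm_num) (by norm_num) fun i => fld_lt _ _ _, enc_fld (s := 40) (n := 16) (by norm_num) hX]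
  rw [CM_eq, e]
  refine E2_congr fun f hf => ?_
  have hix : ix f k < 2 ^ 16 := by unfold ix; norm_num; omega
  rw [fld_enc (by norm_num) (fun i _ => fld_lt _ _ _) hix]
  have h3 := pf_lt (p := 5) (q := 8) (by norm_num) (by norm_num) hf
  have h2 := pf_lt (p := 4) (q := 7) (by norm_num) (by norm_num) h3
  rw [ixs_5_8 hf hk, ixs_4_7 h3 hk, ixs_3_6 h2 hk]
  rfl

/-- valid flags -/
def VV (m f : ℕ) : ℕ := uu m f (NK m + 1)

theorem PF_lt {m : ℕ} (hm : m < 31) : PF m < 2 ^ (40 * 2 ^ 16) := by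
  have h := al_true ckM_ok hm
  rw [st_eq] at h
  obtain ⟨h1, -⟩ := cnd_and h
  rw [st_eq] at h1
  have h2 : PF m ≤ 2 ^ 2621440 - 1 := Nat.le_of_ble_eq_true h1
  have h3 : 0 < 2 ^ 2621440 := Nat.pow_pos (by norm_num)
  exact lt_of_le_of_lt h2 (Nat.sub_lt h3 one_pos)

theorem relW {m : ℕ} (hm : m < 31) {f : ℕ} (hf : f < 1024) :
    uu m f (NK m) + oo * ∑ k ∈ range (NK m), uu m f k = cc m * VV m f := by
  have h := al_true ckM_ok hm
  rw [st_eq] at h
  obtain ⟨-, h⟩ := cnd_and h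
  obtain ⟨h1, -⟩ := cnd_and h
  have hK := NK_lt (show m < 32 by omega)
  unfold ckW at h1
  rw [st_eq] at h1
  have h2 := Nat.eq_of_beq_eq_true h1
  rw [osum_eq] at h2
  have e1 : ∑ k ∈ range (NK m), CM (PF m) k = E2 (fun f => ∑ k ∈ range (NK m), uu m f k) := by
    have : ∀ K, K ≤ 62 → ∑ k ∈ range K, CM (PF m) k = E2 (fun f => ∑ k ∈ range K, uu m f k) := by
      intro K
      induction K with
      | zero => intro _; simp [E2_zero]
      | succ K ih =>
        intro hK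
        rw [sum_range_succ, ih (by omega), CM_PF m (by omega), E2_add]
        exact E2_congr fun f _ => by rw [sum_range_succ]
    exact this _ (by omega)
  rw [e1, show Nat.add (NK m) 1 = NK m + 1 from rfl, CM_PF m (by omega), CM_PF m (by omega)] at h2
  have h3 : E2 (fun f => uu m f (NK m) + oo * ∑ k ∈ range (NK m), uu m f k) = E2 (fun f => cc m * uu m f (NK m + 1)) := by
    rw [← E2_add, ← E2_mulc, ← E2_mulc]; exact h2
  refine E2_inj ?_ ?_ h3 hf
  · intro f _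
    have hs : ∑ k ∈ range (NK m), uu m f k ≤ 62 * 2 ^ 40 := by
      calc _ ≤ ∑ _k ∈ range (NK m), 2 ^ 40 := sum_le_sum fun k _ => (uu_lt m f k).le
        _ = NK m * 2 ^ 40 := by rw [sum_const, card_range, smul_eq_mul]
        _ ≤ _ := Nat.mul_le_mul_right _ (by omega)
    have h0 := uu_lt m f (NK m)
    have ho : oo ≤ 2 ^ 20 := by unfold oo; norm_num
    have h4 : oo * ∑ k ∈ range (NK m), uu m f k ≤ 2 ^ 20 * (62 * 2 ^ 40) := Nat.mul_le_mul ho hs
    refine lt_of_lt_of_le (b := 2 ^ 80) ?_ (Nat.pow_le_pow_right (by norm_num) (by norm_num))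
    norm_num at h0 h4 ⊢
    omega
  · intro f _
    have h0 := uu_lt m f (NK m + 1)
    have hc : cc m < 2 ^ 40 := by
      unfold cc
      exact lt_of_le_of_lt (Nat.and_le_right (m := 1099511627775)) (by norm_num)
    refine lt_of_lt_of_le (b := 2 ^ 40 * 2 ^ 40) (Nat.mul_lt_mul'' hc h0) ?_
    rw [← pow_add]
    exact Nat.pow_le_pow_right (by norm_num) (by norm_num)

theorem cnd_t {α : Type} (x y : α) : cnd true x y = x := rfl
theorem cnd_f {α : Type} (x y : α) : cnd false x y = y := rfl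

/-- the relation of the columns under an exchange -/
def RK (m m' : ℕ) (pf : ℕ → ℕ) (k k' : ℕ) : Prop :=
  (∀ f < 1024, uu m' (pf f) k' = uu m f k) ∨ (∀ f < 1024, uu m f k + uu m' (pf f) k' = VV m f * (2 * oo))

theorem ckI_spec {PT : ℕ → ℕ} {pf : ℕ → ℕ} {i m : ℕ} (h : ckI PT i m = true) (hm : m < 31) (hm' : sb i (i + 1) m < 31)
    (hPT : ∀ X, X < 2 ^ (40 * 2 ^ 16) → ∀ k < 64, CM (PT X) k = E2 (fun f => fld 40 X (ix (pf f) k))) :
    NK (sb i (i + 1) m) = NK m ∧ cc (sb i (i + 1) m) = cc m ∧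
    (∀ k < NK m, qp m i k / 2 < NK m ∧ iq m i (qp m i k / 2) = k ∧ iq m i k < NK m ∧ qp m i (iq m i k) / 2 = k) ∧
    ∀ k < NK m, RK m (sb i (i + 1) m) pf k (qp m i k / 2) := by
  obtain ⟨hQ, h⟩ := cnd_and h
  obtain ⟨h1, h⟩ := cnd_and h
  obtain ⟨h2, h3⟩ := cnd_and h
  have e1 : NK (sb i (i + 1) m) = NK m := Nat.eq_of_beq_eq_true h1
  have e2 : cc (sb i (i + 1) m) = cc m := Nat.eq_of_beq_eq_true h2
  have hQ' : ∀ k < NK m, qp m i k / 2 < NK m ∧ iq m i (qp m i k / 2) = k ∧ iq m i k < NK m ∧ qp m i (iq m i k) / 2 = k := by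
    intro k hk
    have h4 := al_true hQ hk
    obtain ⟨a1, h4⟩ := cnd_and h4
    obtain ⟨a2, h4⟩ := cnd_and h4
    obtain ⟨a3, a4⟩ := cnd_and h4
    exact ⟨Nat.le_of_ble_eq_true a1, Nat.eq_of_beq_eq_true a2, Nat.le_of_ble_eq_true a3, Nat.eq_of_beq_eq_true a4⟩
  refine ⟨e1, e2, hQ', fun k hk => ?_⟩
  have hK := NK_lt (show m < 32 by omega)
  have h5 := al_true h3 hk
  simp only [st_eq] at h5
  have hb : sb i (Nat.add i 1) m = sb i (i + 1) m := rfl
  rw [hb] at h5
  set q := qp m i k with hq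
  obtain ⟨b1, -, -, -⟩ := hQ' k hk
  rw [← hq] at b1
  have hk' : q / 2 < 64 := by omega
  have eY : CM (PT (PF (sb i (i + 1) m))) (q / 2) = E2 (fun f => uu (sb i (i + 1) m) (pf f) (q / 2)) := by
    rw [hPT _ (PF_lt hm') _ hk']
    exact E2_congr fun f _ => (uu_PF _ hk').symm
  have eX : CM (PF m) k = E2 (fun f => uu m f k) := CM_PF m (by omega)
  have eV : CM (PF m) (NK m + 1) = E2 (fun f => VV m f) := CM_PF m (by omega)
  have eq2 : Nat.div q 2 = q / 2 := rfl
  have ek : Nat.add (NK m) 1 = NK m + 1 := rfl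
  rw [eq2, ek, eY, eX, eV] at h5
  by_cases hp : Nat.beq (Nat.mod q 2) 0 = true
  · rw [hp, cnd_t] at h5
    left
    intro f hf
    have h6 := Nat.eq_of_beq_eq_true h5
    exact E2_inj (fun f _ => uu_lt' _ _ _) (fun f _ => uu_lt' _ _ _) h6 hf
  · rw [Bool.not_eq_true] at hp
    rw [hp, cnd_f] at h5
    right
    have h6 : E2 (fun f => uu m f k) + E2 (fun f => uu (sb i (i + 1) m) (pf f) (q / 2)) = E2 (fun f => VV m f) * (2 * oo) :=
      Nat.eq_of_beq_eq_true h5
    rw [E2_add, mul_comm, E2_mulc] at h6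
    intro f hf
    rw [mul_comm (VV m f)]
    refine E2_inj ?_ ?_ h6 hf
    · intro f _
      have a1 := uu_lt m f k
      have a2 := uu_lt (sb i (i + 1) m) (pf f) (q / 2)
      refine lt_of_lt_of_le (b := 2 ^ 80) ?_ (Nat.pow_le_pow_right (by norm_num) (by norm_num))
      norm_num at a1 a2 ⊢
      omega
    · intro f _
      have a1 : VV m f < 2 ^ 40 := uu_lt m f _
      refine lt_of_lt_of_le (b := 2 ^ 80) ?_ (Nat.pow_le_pow_right (by norm_num) (by norm_num))
      unfold oo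
      norm_num at a1 ⊢
      omega

/-- the value as an integer -/
theorem F5_int {m : ℕ} (hm : m < 31) {f1 f2 : ℕ} (h1 : f1 < 1024) (h2 : f2 < 1024) (v1 : VV m f1 = 1) (v2 : VV m f2 = 1) :
    (F5 m f1 f2 : ℤ) = 2 * cc m - NK m * (oo : ℤ) ^ 2 + ∑ k ∈ range (NK m), ((uu m f1 k : ℤ) - oo) * ((uu m f2 k : ℤ) - oo) := by
  have r1 := relW hm h1
  have r2 := relW hm h2
  rw [v1, mul_one] at r1
  rw [v2, mul_one] at r2
  have r1' : (uu m f1 (NK m) : ℤ) = cc m - oo * ∑ k ∈ range (NK m), (uu m f1 k : ℤ) := by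
    have : ((uu m f1 (NK m) + oo * ∑ k ∈ range (NK m), uu m f1 k : ℕ) : ℤ) = (cc m : ℤ) := by rw [r1]
    push_cast at this
    linarith
  have r2' : (uu m f2 (NK m) : ℤ) = cc m - oo * ∑ k ∈ range (NK m), (uu m f2 k : ℤ) := by
    have : ((uu m f2 (NK m) + oo * ∑ k ∈ range (NK m), uu m f2 k : ℕ) : ℤ) = (cc m : ℤ) := by rw [r2]
    push_cast at this
    linarith
  have h3 : ∑ k ∈ range (NK m), ((uu m f1 k : ℤ) - oo) * ((uu m f2 k : ℤ) - oo)
      = ∑ k ∈ range (NK m), (uu m f1 k : ℤ) * (uu m f2 k : ℤ) - oo * ∑ k ∈ range (NK m), (uu m f1 k : ℤ)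
        - oo * ∑ k ∈ range (NK m), (uu m f2 k : ℤ) + NK m * (oo : ℤ) ^ 2 := by
    rw [mul_sum, mul_sum, ← sum_sub_distrib, ← sum_sub_distrib]
    have : (NK m * (oo : ℤ) ^ 2 : ℤ) = ∑ _k ∈ range (NK m), (oo : ℤ) ^ 2 := by rw [sum_const, card_range, nsmul_eq_mul]
    rw [this, ← sum_add_distrib]
    exact sum_congr rfl fun k _ => by ring
  unfold F5
  push_cast
  rw [h3, r1', r2']
  ring

/-- invariance of the value -/
theorem F5_inv {PT : ℕ → ℕ} {pf : ℕ → ℕ} {i m : ℕ} (h : ckI PT i m = true) (hm : m < 31) (hm' : sb i (i + 1) m < 31)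
    (hpf : ∀ f < 1024, pf f < 1024)
    (hPT : ∀ X, X < 2 ^ (40 * 2 ^ 16) → ∀ k < 64, CM (PT X) k = E2 (fun f => fld 40 X (ix (pf f) k)))
    {f1 f2 : ℕ} (h1 : f1 < 1024) (h2 : f2 < 1024) (v1 : VV m f1 = 1) (v2 : VV m f2 = 1)
    (w1 : VV (sb i (i + 1) m) (pf f1) = 1) (w2 : VV (sb i (i + 1) m) (pf f2) = 1) :
    F5 (sb i (i + 1) m) (pf f1) (pf f2) = F5 m f1 f2 := by
  obtain ⟨e1, e2, hQ, hR⟩ := ckI_spec h hm hm' hPT
  have g1 := F5_int hm h1 h2 v1 v2
  have g2 := F5_int hm' (hpf _ h1) (hpf _ h2) w1 w2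
  rw [e1, e2] at g2
  have hs : ∑ k ∈ range (NK m), ((uu m f1 k : ℤ) - oo) * ((uu m f2 k : ℤ) - oo)
      = ∑ k ∈ range (NK m), ((uu (sb i (i + 1) m) (pf f1) k : ℤ) - oo) * ((uu (sb i (i + 1) m) (pf f2) k : ℤ) - oo) := by
    refine sum_nbij' (fun k => qp m i k / 2) (fun k => iq m i k) ?_ ?_ ?_ ?_ ?_
    · intro k hk; exact mem_range.mpr (hQ k (mem_range.mp hk)).1
    · intro k hk; exact mem_range.mpr (hQ k (mem_range.mp hk)).2.2.1
    · intro k hk; exact (hQ k (mem_range.mp hk)).2.1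
    · intro k hk; exact (hQ k (mem_range.mp hk)).2.2.2
    · intro k hk
      rcases hR k (mem_range.mp hk) with r | r
      · rw [r f1 h1, r f2 h2]
      · have a1 := r f1 h1
        have a2 := r f2 h2
        rw [v1, one_mul] at a1
        rw [v2, one_mul] at a2
        have b1 : (uu (sb i (i + 1) m) (pf f1) (qp m i k / 2) : ℤ) = 2 * oo - uu m f1 k := by
          have : ((uu m f1 k + uu (sb i (i + 1) m) (pf f1) (qp m i k / 2) : ℕ) : ℤ) = ((2 * oo : ℕ) : ℤ) := by rw [a1]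
          push_cast at this
          linarith
        have b2 : (uu (sb i (i + 1) m) (pf f2) (qp m i k / 2) : ℤ) = 2 * oo - uu m f2 k := by
          have : ((uu m f2 k + uu (sb i (i + 1) m) (pf f2) (qp m i k / 2) : ℕ) : ℤ) = ((2 * oo : ℕ) : ℤ) := by rw [a2]
          push_cast at this
          linarith
        rw [b1, b2]
        ring
  rw [← hs, ← g1] at g2
  exact Nat.cast_injective (R := ℤ) g2

theorem E2_land {φ : ℕ → ℕ} (hφ : ∀ f < 1024, φ f < 2 ^ 40) {w : ℕ} (hw : w ≤ 40)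
    (h : Nat.land (E2 φ) (Nat.mul (Nat.div MKC 1099511627775) (2 ^ 40 - 2 ^ w)) = 0) {f : ℕ} (hf : f < 1024) : φ f < 2 ^ w := by
  have e : Nat.mul (Nat.div MKC 1099511627775) (2 ^ 40 - 2 ^ w) = E2 (fun _ => 2 ^ 40 - 2 ^ w) := by
    have e1 : MKC = E2 (fun _ => 1) * 1099511627775 := by
      rw [MKC_eq, mul_comm, E2_mulc]; rfl
    rw [e1]
    have e2 : Nat.div (E2 (fun _ => 1) * 1099511627775) 1099511627775 = E2 (fun _ => 1) := Nat.mul_div_cancel _ (by norm_num)
    rw [e2]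
    have e3 := E2_mulc (fun _ => 1) (2 ^ 40 - 2 ^ w)
    rw [mul_comm] at e3
    refine Eq.trans e3 ?_
    exact E2_congr fun f _ => by rw [mul_one]
  rw [e] at h
  have c1 : ∀ f < 1024, φ f < 2 ^ 640 := fun f hf => lt_of_lt_of_le (hφ f hf) (Nat.pow_le_pow_right (by norm_num) (by norm_num))
  have c2 : ∀ f < 1024, (fun _ : ℕ => 2 ^ 40 - 2 ^ w) f < 2 ^ 640 := fun f _ =>
    lt_of_le_of_lt (Nat.sub_le _ _) (Nat.pow_lt_pow_right (by norm_num) (by norm_num))
  have hl : Nat.land (E2 φ) (E2 (fun _ => 2 ^ 40 - 2 ^ w)) = E2 (fun f => Nat.land (φ f) (2 ^ 40 - 2 ^ w)) := by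
    unfold E2
    rw [encLand (by norm_num) (E2_lt c1) (E2_lt c2)]
    refine enc_congr fun j hj => ?_
    exact encLand (s := 640) (n := 6) (by norm_num) (fun y hy => c1 _ (by
      have hy' : y < 64 := hy
      have hj' : j < 16 := hj
      omega)) (fun y hy => c2 0 (by norm_num))
  rw [hl] at h
  have h3 : E2 (fun f => Nat.land (φ f) (2 ^ 40 - 2 ^ w)) = E2 (fun _ => 0) := h.trans E2_zero.symm
  have h4 := E2_inj (fun f hf => lt_of_le_of_lt (Nat.and_le_left (n := φ f)) (c1 f hf)) (fun f _ => by positivity) h3 hf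
  exact ltLand (hφ f hf) hw h4

theorem uu_small {m : ℕ} (hm : m < 31) {f k : ℕ} (hf : f < 1024) (hk : k < NK m) : uu m f k < 2 ^ 15 := by
  have h := al_true ckM_ok hm
  rw [st_eq] at h
  obtain ⟨-, h⟩ := cnd_and h
  obtain ⟨-, h⟩ := cnd_and h
  obtain ⟨h1, -⟩ := cnd_and h
  rw [st_eq] at h1
  have h2 := Nat.eq_of_beq_eq_true (al_true h1 hk)
  have hK := NK_lt (show m < 32 by omega)
  rw [CM_PF m (by omega)] at h2
  exact E2_land (w := 15) (fun f _ => uu_lt m f k) (by norm_num) h2 hf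

theorem cc_le {m : ℕ} (hm : m < 31) : cc m ≤ CMAX := by
  have h := al_true ckM_ok hm
  rw [st_eq] at h
  obtain ⟨-, h⟩ := cnd_and h
  obtain ⟨-, h⟩ := cnd_and h
  obtain ⟨-, h⟩ := cnd_and h
  obtain ⟨h1, -⟩ := cnd_and h
  exact Nat.le_of_ble_eq_true h1

theorem VV_le {m : ℕ} (hm : m < 31) {f : ℕ} (hf : f < 1024) : VV m f ≤ 1 := by
  have h := al_true ckM_ok hm
  rw [st_eq] at h
  obtain ⟨-, h⟩ := cnd_and h
  obtain ⟨-, h⟩ := cnd_and h
  obtain ⟨-, h⟩ := cnd_and h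
  obtain ⟨-, h1⟩ := cnd_and h
  rw [st_eq] at h1
  have h2 := Nat.eq_of_beq_eq_true h1
  have hK := NK_lt (show m < 32 by omega)
  rw [show Nat.add (NK m) 1 = NK m + 1 from rfl, CM_PF m (by omega)] at h2
  have := E2_land (w := 1) (φ := fun f => uu m f (NK m + 1)) (fun f _ => uu_lt m f _) (by norm_num) h2 hf
  unfold VV
  omega

/-- bound for one term -/
theorem F5_le {m : ℕ} (hm : m < 32) {f1 f2 : ℕ} (h1 : f1 < 1024) (h2 : f2 < 1024) : F5 m f1 f2 ≤ DM := by
  rcases Nat.lt_succ_iff_lt_or_eq.mp hm with hm | rfl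
  · have hc := cc_le hm
    have key : ∀ f < 1024, uu m f (NK m) + oo * ∑ k ∈ range (NK m), uu m f k ≤ CMAX := fun f hf => by
      rw [relW hm hf]
      calc _ ≤ cc m * 1 := Nat.mul_le_mul_left _ (VV_le hm hf)
        _ ≤ _ := by rw [mul_one]; exact hc
    have k1 := key f1 h1
    have k2 := key f2 h2
    have hs : ∑ k ∈ range (NK m), uu m f1 k * uu m f2 k ≤ (∑ k ∈ range (NK m), uu m f1 k) * 32767 := by
      rw [sum_mul]
      exact sum_le_sum fun k hk => Nat.mul_le_mul_left _ (by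
        have := uu_small hm h2 (mem_range.mp hk)
        omega)
    unfold F5
    generalize (∑ k ∈ range (NK m), uu m f1 k) = s1 at hs k1
    unfold oo CMAX at k1
    unfold CMAX at k2
    unfold DM
    generalize oo * ∑ k ∈ range (NK m), uu m f2 k = s2 at k2
    omega
  · have e : PF 31 = 0 := by
      have := Nat.eq_of_beq_eq_true PF31
      rwa [st_eq] at this
    have hu : ∀ f k, uu 31 f k = 0 := fun f k => by
      unfold uu dg
      rw [XB_eq, e]
      simp [fld]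
    unfold F5
    simp only [hu]
    simp

end

end Pool.Agent.N443.K54
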