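import Pool.Agent.N443.K54.Ker

/-! Kernel computation. -/

set_option autoImplicit false
set_option maxRecDepth 100000
set_option maxHeartbeats 4000000

namespace Pool.Agent.N443.K54

theorem kk1 : chk 44 = true ∧ chk 45 = true ∧ chk 47 = true ∧ chk 60 = true ∧ chk 61 = true ∧ chk 102 = true ∧ chk 103 = true ∧ chk 106 = true ∧ chk 107 = true :=
  ⟨by decide +kernel, by decide +kernel, by decide +kernel, by decide +kernel, by decide +kernel, by decide +kernel, by decide +kernel, by decide +kernel, by decide +kernel⟩

end Pool.Agent.N443.K54
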