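import Pool.Agent.N443.K54.K0

/-! Kernel computation. -/

set_option autoImplicit false
set_option maxRecDepth 100000
set_option maxHeartbeats 4000000

namespace Pool.Agent.N443.K54

theorem kk3 : chk 246 = true ∧ chk 247 = true ∧ chk 254 = true ∧ chk 510 = true ∧ chk 615 = true ∧ chk 616 = true ∧ chk 617 = true ∧ chk 619 = true ∧ chk 623 = true :=
  ⟨by decide +kernel, by decide +kernel, by decide +kernel, by decide +kernel, by decide +kernel, by decide +kernel, by decide +kernel, by decide +kernel, by decide +kernel⟩

end Pool.Agent.N443.K54
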