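import Pool.Agent.N443.K54.K3

/-! Kernel computation. -/

set_option autoImplicit false
set_option maxRecDepth 100000
set_option maxHeartbeats 4000000

namespace Pool.Agent.N443.K54

theorem kk6 : chk 701 = true ∧ chk 750 = true ∧ chk 751 = true ∧ chk 758 = true ∧ chk 759 = true ∧ chk 760 = true ∧ chk 761 = true ∧ chk 762 = true ∧ chk 763 = true :=
  ⟨by decide +kernel, by decide +kernel, by decide +kernel, by decide +kernel, by decide +kernel, by decide +kernel, by decide +kernel, by decide +kernel, by decide +kernel⟩

end Pool.Agent.N443.K54
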