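import Pool.Agent.N443.K54.K5

/-! Kernel computation. -/

set_option autoImplicit false
set_option maxRecDepth 100000
set_option maxHeartbeats 4000000

namespace Pool.Agent.N443.K54

theorem kk8 : chk 957 = true ∧ chk 958 = true ∧ chk 1022 = true ∧ chk 1743 = true ∧ chk 1749 = true ∧ chk 1751 = true ∧ chk 1775 = true ∧ chk 1780 = true ∧ chk 1781 = true :=
  ⟨by decide +kernel, by decide +kernel, by decide +kernel, by decide +kernel, by decide +kernel, by decide +kernel, by decide +kernel, by decide +kernel, by decide +kernel⟩

end Pool.Agent.N443.K54
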