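import Pool.Agent.N443.K54.K6

/-! Kernel computation. -/

set_option autoImplicit false
set_option maxRecDepth 100000
set_option maxHeartbeats 4000000

namespace Pool.Agent.N443.K54

theorem kk9 : chk 1783 = true ∧ chk 1788 = true ∧ chk 1789 = true ∧ chk 1880 = true ∧ chk 1881 = true ∧ chk 1883 = true ∧ chk 1884 = true ∧ chk 1885 = true ∧ chk 1915 = true :=
  ⟨by decide +kernel, by decide +kernel, by decide +kernel, by decide +kernel, by decide +kernel, by decide +kernel, by decide +kernel, by decide +kernel, by decide +kernel⟩

end Pool.Agent.N443.K54
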