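import Pool.Agent.N443.K54.Red
import Pool.Agent.N443.Core.Avg
import Pool.Agent.Y440.A.Stm

/-! The inequality for the density. -/

set_option autoImplicit false
set_option maxRecDepth 100000
open Finset Equiv

namespace Pool.Agent.N443.K54

noncomputable section

open Pool.Agent.Y435.T7 (bt al)
open Pool.Agent.N443 (st_eq al_true cnd_and mkN mkN_congr mkN_lt bt_mkN codeN act Cl Kp Inv7 Psi gv gv_act sum_act sum_Psi
  sum7 psd_sum sum_gv_perm card_tuples)
open Pool.Agent.Y440.A (Odd4)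

variable {V : Type} [Fintype V] [DecidableEq V]

/-- four-uniform hypergraphs without a complete set of five -/
structure Free (H : Finset V → Prop) : Prop where
  c4 : ∀ Q, H Q → Q.card = 4
  f5 : ∀ P : Finset V, P.card = 5 → ∃ Q ∈ powersetCard 4 P, ¬ H Q

omit [Fintype V] in
theorem gv_zero {H : Finset V → Prop} {u : Fin 7 → V} {Q : Finset (Fin 7)} (h : ¬ H (Q.image u)) : gv H u Q = 0 := by
  unfold gv; rw [if_neg h]

omit [Fintype V] in
theorem val_gv {H : Finset V → Prop} (h : Free H) (u : Fin 7 → V) : Val (gv H u) := by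
  refine ⟨fun Q => by unfold gv; split_ifs <;> norm_num, fun P hP => ?_⟩
  by_cases hinj : Set.InjOn u P
  · obtain ⟨Q', hQ', hn⟩ := h.f5 (P.image u) (by rw [card_image_of_injOn hinj, hP])
    rw [mem_powersetCard] at hQ'
    have himg : (P.filter fun i => u i ∈ Q').image u = Q' := by
      ext x
      rw [mem_image]
      constructor
      · rintro ⟨i, hi, rfl⟩; exact (mem_filter.mp hi).2
      · intro hx
        obtain ⟨i, hi, rfl⟩ := mem_image.mp (hQ'.1 hx)
        exact ⟨i, mem_filter.mpr ⟨hi, hx⟩, rfl⟩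
    refine ⟨P.filter fun i => u i ∈ Q', ?_, gv_zero (by rw [himg]; exact hn)⟩
    rw [mem_powersetCard]
    refine ⟨filter_subset _ _, ?_⟩
    rw [← hQ'.2, ← himg, card_image_of_injOn]
    · rw [himg]
    · exact hinj.mono (by exact_mod_cast filter_subset _ _)
  · unfold Set.InjOn at hinj
    push Not at hinj
    obtain ⟨i, hi, j, hj, hij, hne⟩ := hinj
    have hi' : i ∈ P := hi
    have hj' : j ∈ P := hj
    have hex : ∃ k ∈ (P.erase i).erase j, True := by
      have hc : ((P.erase i).erase j).card = 3 := by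
        rw [card_erase_of_mem (mem_erase.mpr ⟨Ne.symm hne, hj'⟩), card_erase_of_mem hi', hP]
      obtain ⟨k, hk⟩ := card_pos.mp (by rw [hc]; norm_num : 0 < ((P.erase i).erase j).card)
      exact ⟨k, hk, trivial⟩
    obtain ⟨k, hk, -⟩ := hex
    rw [mem_erase, mem_erase] at hk
    obtain ⟨hkj, hki, hkP⟩ := hk
    refine ⟨P.erase k, mem_powersetCard.mpr ⟨erase_subset _ _, by rw [card_erase_of_mem hkP, hP]⟩, gv_zero ?_⟩
    intro hH
    have h4 := h.c4 _ hH
    have e : (P.erase k).image u = ((P.erase k).erase i).image u := by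
      ext x
      rw [mem_image, mem_image]
      constructor
      · rintro ⟨l, hl, rfl⟩
        by_cases hli : l = i
        · refine ⟨j, mem_erase.mpr ⟨Ne.symm hne, mem_erase.mpr ⟨Ne.symm hkj, hj'⟩⟩, by rw [hli, hij]⟩
        · exact ⟨l, mem_erase.mpr ⟨hli, hl⟩, rfl⟩
      · rintro ⟨l, hl, rfl⟩
        exact ⟨l, (mem_erase.mp hl).2, rfl⟩
    have h3 : ((P.erase k).erase i).card = 3 := by
      rw [card_erase_of_mem (mem_erase.mpr ⟨Ne.symm hki, hi'⟩), card_erase_of_mem hkP, hP]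
    have := card_image_le (s := (P.erase k).erase i) (f := u)
    rw [← e, h4, h3] at this
    omega

theorem hRM : ∀ j < 5, ∀ i ∈ RM.getD j ∅, i.val < 5 := by decide +kernel
theorem hRA : ∀ j < 10, ∀ i ∈ RA.getD j ∅, i.val < 6 := by decide +kernel

omit [Fintype V] in
theorem code_gv {n : ℕ} {L : List (Finset (Fin 7))} {H : Finset V → Prop} {u u' : Fin 7 → V}
    (h : ∀ j < n, ∀ i ∈ L.getD j ∅, u i = u' i) : codeN n L (gv H u) = codeN n L (gv H u') :=
  mkN_congr fun j hj => by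
    have : (L.getD j ∅).image u = (L.getD j ∅).image u' := image_congr fun i hi => h j hj i hi
    unfold gv; rw [this]

omit [Fintype V] [DecidableEq V] in
theorem vec5 {a b c d e x y x' y' : V} {i : Fin 7} (h : i.val < 5) :
    (![a, b, c, d, e, x, y] : Fin 7 → V) i = (![a, b, c, d, e, x', y'] : Fin 7 → V) i := by
  fin_cases i
  all_goals simp at h ⊢
omit [Fintype V] [DecidableEq V] in
theorem vec6 {a b c d e x y y' : V} {i : Fin 7} (h : i.val < 6) :
    (![a, b, c, d, e, x, y] : Fin 7 → V) i = (![a, b, c, d, e, x, y'] : Fin 7 → V) i := by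
  fin_cases i
  all_goals simp at h ⊢
omit [Fintype V] [DecidableEq V] in
theorem vecs (a b c d e x y : V) : (![a, b, c, d, e, x, y] : Fin 7 → V) ∘ (swap 5 6 : Perm (Fin 7)) = ![a, b, c, d, e, y, x] := by
  have h : ∀ i : Fin 7, (swap 5 6 : Perm (Fin 7)) i = (![0, 1, 2, 3, 4, 6, 5] : Fin 7 → Fin 7) i := by decide +kernel
  funext i
  rw [Function.comp_apply, h]
  fin_cases i
  all_goals simp

/-- the constant part of the value -/
def DD (m : ℕ) : ℤ := 2 * cc m - NK m * (oo : ℤ) ^ 2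

theorem GG_lower {H : Finset V → Prop} (h : Free H) :
    ∑ u : Fin 7 → V, DD (codeN 5 RM (gv H u)) ≤ ∑ u : Fin 7 → V, (GG (gv H u) : ℤ) := by
  rw [sum7, sum7 (V := V) fun u => (GG (gv H u) : ℤ)]
  refine sum_le_sum fun a _ => sum_le_sum fun b _ => sum_le_sum fun c _ => sum_le_sum fun d _ => sum_le_sum fun e _ => ?_
  set m := codeN 5 RM (gv H ![a, b, c, d, e, a, a]) with hm
  have e1 : ∀ x y, codeN 5 RM (gv H ![a, b, c, d, e, x, y]) = m := fun x y => code_gv fun j hj i hi => vec5 (hRM j hj i hi)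
  have e2 : ∀ x y, codeN 10 RA (gv H ![a, b, c, d, e, x, y]) = codeN 10 RA (gv H ![a, b, c, d, e, x, a]) := fun x y =>
    code_gv fun j hj i hi => vec6 (hRA j hj i hi)
  have e3 : ∀ x y, codeN 10 RB (gv H ![a, b, c, d, e, x, y]) = codeN 10 RA (gv H ![a, b, c, d, e, y, a]) := fun x y => by
    rw [← RA_s5, gv_act, vecs, e2]
  have hlt : m < 31 := m_lt (val_gv h _)
  have h1 : ∀ x y, (GG (gv H ![a, b, c, d, e, x, y]) : ℤ) = DD m + ∑ k ∈ range (NK m),
      ((uu m (codeN 10 RA (gv H ![a, b, c, d, e, x, a])) k : ℤ) - oo) * ((uu m (codeN 10 RA (gv H ![a, b, c, d, e, y, a])) k : ℤ) - oo) := by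
    intro x y
    have v1 := VA (val_gv h ![a, b, c, d, e, x, a])
    have v2 := VA (val_gv h ![a, b, c, d, e, y, a])
    rw [e1] at v1 v2
    unfold GG
    rw [e1, e2, e3, F5_int hlt (code_lt (val_gv h _).1) (code_lt (val_gv h _).1) v1 v2, ← DD]
  have h2 := psd_sum (V := V) (DD m) (NK m) fun x k => ((uu m (codeN 10 RA (gv H ![a, b, c, d, e, x, a])) k : ℤ) - oo)
  refine le_trans (le_of_eq ?_) (h2.trans (le_of_eq ?_))
  · exact sum_congr rfl fun x _ => sum_congr rfl fun y _ => by rw [e1]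
  · exact sum_congr rfl fun x _ => sum_congr rfl fun y _ => (h1 x y).symm

/-- number of quadruples of a mask -/
def pc (m : ℕ) : ℕ := bt 0 m + bt 1 m + bt 2 m + bt 3 m + bt 4 m
/-- number of positions with value one of the derived structure -/
def ct (m : ℕ) : ℕ := (1 + bt 1 m + bt 2 m + bt 3 m + bt 4 m) % 2 + (1 + bt 0 m + bt 2 m + bt 3 m + bt 4 m) % 2 +
  (1 + bt 0 m + bt 1 m + bt 3 m + bt 4 m) % 2 + (1 + bt 0 m + bt 1 m + bt 2 m + bt 4 m) % 2 + (1 + bt 0 m + bt 1 m + bt 2 m + bt 3 m) % 2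

theorem DD_tab : ∀ m < 31, 2 * cc m + 25 * 279832 = NK m * oo ^ 2 + 6675773660 + 16200000 * pc m + 16 * 279832 * ct m := by
  decide +kernel

theorem DD_eq {m : ℕ} (hm : m < 31) : DD m = 6675773660 + 16200000 * (pc m : ℤ) + 279832 * (16 * (ct m : ℤ) - 25) := by
  have h : ((2 * cc m + 25 * 279832 : ℕ) : ℤ) = ((NK m * oo ^ 2 + 6675773660 + 16200000 * pc m + 16 * 279832 * ct m : ℕ) : ℤ) := by
    rw [DD_tab m hm]
  push_cast at h
  unfold DD
  linarith

/-- the derived structure at position 0 -/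
def T0 (g : Finset (Fin 7) → ℕ) : ℕ := (1 + g {0, 2, 3, 4} + g {0, 1, 3, 4} + g {0, 1, 2, 4} + g {0, 1, 2, 3}) % 2

theorem bts {g : Finset (Fin 7) → ℕ} (hg : ∀ Q, g Q ≤ 1) : bt 0 (codeN 5 RM g) = g {1, 2, 3, 4} ∧ bt 1 (codeN 5 RM g) = g {0, 2, 3, 4} ∧
    bt 2 (codeN 5 RM g) = g {0, 1, 3, 4} ∧ bt 3 (codeN 5 RM g) = g {0, 1, 2, 4} ∧ bt 4 (codeN 5 RM g) = g {0, 1, 2, 3} := by
  have bm : ∀ i < 5, bt i (codeN 5 RM g) = g (RM.getD i ∅) := fun i hi => bt_mkN hi fun j => hg _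
  refine ⟨bm 0 (by norm_num), bm 1 (by norm_num), bm 2 (by norm_num), bm 3 (by norm_num), bm 4 (by norm_num)⟩

theorem pc_sum (H : Finset V → Prop) : ∑ u : Fin 7 → V, pc (codeN 5 RM (gv H u)) = 5 * ∑ u : Fin 7 → V, gv H u {0, 1, 2, 3} := by
  have hb : ∀ u : Fin 7 → V, ∀ Q, gv H u Q ≤ 1 := fun u Q => by unfold gv; split_ifs <;> norm_num
  have h1 : ∀ u : Fin 7 → V, pc (codeN 5 RM (gv H u)) = gv H u {1, 2, 3, 4} + gv H u {0, 2, 3, 4} + gv H u {0, 1, 3, 4} +
      gv H u {0, 1, 2, 4} + gv H u {0, 1, 2, 3} := by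
    intro u
    obtain ⟨h0, h1, h2, h3, h4⟩ := bts (hb u)
    unfold pc
    rw [h0, h1, h2, h3, h4]
  have p0 : ({1, 2, 3, 4} : Finset (Fin 7)) = ({0, 1, 2, 3} : Finset (Fin 7)).image (swap 0 4 : Perm (Fin 7)) := by decide +kernel
  have p1 : ({0, 2, 3, 4} : Finset (Fin 7)) = ({0, 1, 2, 3} : Finset (Fin 7)).image (swap 1 4 : Perm (Fin 7)) := by decide +kernel
  have p2 : ({0, 1, 3, 4} : Finset (Fin 7)) = ({0, 1, 2, 3} : Finset (Fin 7)).image (swap 2 4 : Perm (Fin 7)) := by decide +kernel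
  have p3 : ({0, 1, 2, 4} : Finset (Fin 7)) = ({0, 1, 2, 3} : Finset (Fin 7)).image (swap 3 4 : Perm (Fin 7)) := by decide +kernel
  rw [sum_congr rfl fun u _ => h1 u]
  simp only [sum_add_distrib]
  rw [p0, p1, p2, p3, sum_gv_perm, sum_gv_perm, sum_gv_perm, sum_gv_perm]
  ring

theorem ct_sum (H : Finset V → Prop) : ∑ u : Fin 7 → V, ct (codeN 5 RM (gv H u)) = 5 * ∑ u : Fin 7 → V, T0 (gv H u) := by
  have hb : ∀ u : Fin 7 → V, ∀ Q, gv H u Q ≤ 1 := fun u Q => by unfold gv; split_ifs <;> norm_num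
  have h1 : ∀ u : Fin 7 → V, ct (codeN 5 RM (gv H u)) = T0 (gv H u) + T0 (act (swap 0 1) (gv H u)) + T0 (act (swap 0 2) (gv H u))
      + T0 (act (swap 0 3) (gv H u)) + T0 (act (swap 0 4) (gv H u)) := by
    intro u
    obtain ⟨h0, h1, h2, h3, h4⟩ := bts (hb u)
    unfold ct T0 act
    rw [h0, h1, h2, h3, h4]
    have a1 : ({0, 2, 3, 4} : Finset (Fin 7)).image (swap 0 1 : Perm (Fin 7)) = {1, 2, 3, 4} := by decide +kernel
    have a2 : ({0, 1, 3, 4} : Finset (Fin 7)).image (swap 0 1 : Perm (Fin 7)) = {0, 1, 3, 4} := by decide +kernel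
    have a3 : ({0, 1, 2, 4} : Finset (Fin 7)).image (swap 0 1 : Perm (Fin 7)) = {0, 1, 2, 4} := by decide +kernel
    have a4 : ({0, 1, 2, 3} : Finset (Fin 7)).image (swap 0 1 : Perm (Fin 7)) = {0, 1, 2, 3} := by decide +kernel
    have b1 : ({0, 2, 3, 4} : Finset (Fin 7)).image (swap 0 2 : Perm (Fin 7)) = {0, 2, 3, 4} := by decide +kernel
    have b2 : ({0, 1, 3, 4} : Finset (Fin 7)).image (swap 0 2 : Perm (Fin 7)) = {1, 2, 3, 4} := by decide +kernel
    have b3 : ({0, 1, 2, 4} : Finset (Fin 7)).image (swap 0 2 : Perm (Fin 7)) = {0, 1, 2, 4} := by decide +kernel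
    have b4 : ({0, 1, 2, 3} : Finset (Fin 7)).image (swap 0 2 : Perm (Fin 7)) = {0, 1, 2, 3} := by decide +kernel
    have c1 : ({0, 2, 3, 4} : Finset (Fin 7)).image (swap 0 3 : Perm (Fin 7)) = {0, 2, 3, 4} := by decide +kernel
    have c2 : ({0, 1, 3, 4} : Finset (Fin 7)).image (swap 0 3 : Perm (Fin 7)) = {0, 1, 3, 4} := by decide +kernel
    have c3 : ({0, 1, 2, 4} : Finset (Fin 7)).image (swap 0 3 : Perm (Fin 7)) = {1, 2, 3, 4} := by decide +kernel
    have c4 : ({0, 1, 2, 3} : Finset (Fin 7)).image (swap 0 3 : Perm (Fin 7)) = {0, 1, 2, 3} := by decide +kernel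
    have d1 : ({0, 2, 3, 4} : Finset (Fin 7)).image (swap 0 4 : Perm (Fin 7)) = {0, 2, 3, 4} := by decide +kernel
    have d2 : ({0, 1, 3, 4} : Finset (Fin 7)).image (swap 0 4 : Perm (Fin 7)) = {0, 1, 3, 4} := by decide +kernel
    have d3 : ({0, 1, 2, 4} : Finset (Fin 7)).image (swap 0 4 : Perm (Fin 7)) = {0, 1, 2, 4} := by decide +kernel
    have d4 : ({0, 1, 2, 3} : Finset (Fin 7)).image (swap 0 4 : Perm (Fin 7)) = {1, 2, 3, 4} := by decide +kernel
    rw [a1, a2, a3, a4, b1, b2, b3, b4, c1, c2, c3, c4, d1, d2, d3, d4]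
    generalize gv H u {1, 2, 3, 4} = q0
    generalize gv H u {0, 2, 3, 4} = q1
    generalize gv H u {0, 1, 3, 4} = q2
    generalize gv H u {0, 1, 2, 4} = q3
    generalize gv H u {0, 1, 2, 3} = q4
    have e1 : 1 + q1 + q2 + q3 + q4 = 1 + q1 + q2 + q3 + q4 := rfl
    have e2 : 1 + q0 + q2 + q3 + q4 = 1 + q0 + q2 + q3 + q4 := rfl
    have e3 : 1 + q1 + q0 + q3 + q4 = 1 + q0 + q1 + q3 + q4 := by ring
    have e4 : 1 + q1 + q2 + q0 + q4 = 1 + q0 + q1 + q2 + q4 := by ring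
    have e5 : 1 + q1 + q2 + q3 + q0 = 1 + q0 + q1 + q2 + q3 := by ring
    rw [e3, e4, e5]
  rw [sum_congr rfl fun u _ => h1 u]
  simp only [sum_add_distrib]
  rw [sum_act H _ T0, sum_act H _ T0, sum_act H _ T0, sum_act H _ T0]
  ring

end

end Pool.Agent.N443.K54
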