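import Pool.Agent.N443.K54.Tot
import Pool.Agent.N443.K54.KAll
import Pool.Agent.N443.Core.Cls

/-! The bound for the sum over all pairs, for every admissible set function. -/

set_option autoImplicit false
set_option maxRecDepth 100000
open Finset Equiv

namespace Pool.Agent.N443.K54

noncomputable section

open Pool.Agent.Y435.T7 (bt)
open Pool.Agent.N443 (st_eq al_true cnd_and mkN mkN_congr mkN_lt bt_mkN codeN act Cl Kp Inv7 Psi Psi_act cov cov_spec okP okP_spec wf2 ph2)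

def t0 : List (ℕ × ℕ) := [(1, 2), (5, 6), (10, 11), (12, 13)]
def t1 : List (ℕ × ℕ) := [(2, 3), (6, 7), (9, 10), (13, 14)]
def t2 : List (ℕ × ℕ) := [(3, 4), (7, 8), (10, 12), (11, 13)]
def t3 : List (ℕ × ℕ) := [(0, 4), (5, 12), (6, 13), (7, 14)]
def t4 : List (ℕ × ℕ) := [(1, 5), (2, 6), (3, 7), (4, 8)]
theorem ot0 : okP 15 CQ t0 (swap 0 1) = true := by decide +kernel
theorem ot1 : okP 15 CQ t1 (swap 1 2) = true := by decide +kernel
theorem ot2 : okP 15 CQ t2 (swap 2 3) = true := by decide +kernel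
theorem ot3 : okP 15 CQ t3 (swap 3 4) = true := by decide +kernel
theorem ot4 : okP 15 CQ t4 (swap 4 5) = true := by decide +kernel
/-- a word for the longest permutation -/
def WL : List (List (ℕ × ℕ)) := [t0, t1, t0, t2, t1, t0, t3, t2, t1, t0, t4, t3, t2, t1, t0]
/-- complete sets of five -/
def BP : List (List ℕ × Finset (Fin 7)) := [([1, 5, 12, 10, 9], {1, 2, 3, 4, 5}), ([2, 6, 13, 11, 9], {0, 2, 3, 4, 5}), ([3, 7, 14, 11, 10], {0, 1, 3, 4, 5}), ([4, 8, 14, 13, 12], {0, 1, 2, 4, 5}), ([0, 8, 7, 6, 5], {0, 1, 2, 3, 5}), ([0, 4, 3, 2, 1], {0, 1, 2, 3, 4})]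

theorem cov_ok : cov 15 reps WL (BP.map Prod.fst) = true := by decide +kernel

theorem reps_lt : ∀ c ∈ reps, c < 2 ^ 15 := by decide +kernel

/-- the value is bounded for all set functions with this code -/
def Good (c : ℕ) : Prop := ∀ g, Val g → codeN 15 CQ g = c → Psi GG g ≤ cC

theorem good_rep {c : ℕ} (hc : c ∈ reps) : Good c := by
  intro g hg e
  exact Psi_le hg (by rw [e]; exact k_all c hc)

theorem good_step {l : List (ℕ × ℕ)} {σ : Perm (Fin 7)} (h : okP 15 CQ l σ = true) {c : ℕ} (hc : Good (ph2 l c)) : Good c := by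
  intro g hg e
  have h1 := hc (act σ g) (Val_cl g hg σ) (by rw [← e]; exact (okP_spec h hg.1).2.symm)
  rwa [Psi_act inv7 hg σ] at h1

theorem WL_ok : ∀ l ∈ WL, ∃ σ, okP 15 CQ l σ = true := by
  intro l hl
  simp only [WL, List.mem_cons, List.not_mem_nil, or_false] at hl
  rcases hl with rfl | rfl | rfl | rfl | rfl | rfl | rfl | rfl | rfl | rfl | rfl | rfl | rfl | rfl | rfl
  · exact ⟨_, ot0⟩
  · exact ⟨_, ot1⟩
  · exact ⟨_, ot0⟩
  · exact ⟨_, ot2⟩
  · exact ⟨_, ot1⟩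
  · exact ⟨_, ot0⟩
  · exact ⟨_, ot3⟩
  · exact ⟨_, ot2⟩
  · exact ⟨_, ot1⟩
  · exact ⟨_, ot0⟩
  · exact ⟨_, ot4⟩
  · exact ⟨_, ot3⟩
  · exact ⟨_, ot2⟩
  · exact ⟨_, ot1⟩
  · exact ⟨_, ot0⟩

theorem BP_ok : ∀ x ∈ BP, x.2.card = 5 ∧ ∀ Q ∈ powersetCard 4 x.2, ∃ i ∈ x.1, i < 15 ∧ CQ.getD i ∅ = Q := by decide +kernel

theorem Psi_all {g : Finset (Fin 7) → ℕ} (hg : Val g) : Psi GG g ≤ cC := by
  have h := cov_spec (G := Good) cov_ok (fun c hc => ⟨reps_lt c hc, good_rep hc⟩)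
    (fun l hl => by obtain ⟨σ, h⟩ := WL_ok l hl; exact (okP_spec h hg.1).1)
    (fun l hl c _ hc => by obtain ⟨σ, h⟩ := WL_ok l hl; exact good_step h hc)
    (c := codeN 15 CQ g) (mkN_lt fun _ => hg.1 _)
  rcases h with h | ⟨l, hl, h⟩
  · exact h g hg rfl
  · exfalso
    obtain ⟨x, hx, rfl⟩ := List.mem_map.mp hl
    obtain ⟨h1, h2⟩ := BP_ok x hx
    obtain ⟨Q, hQ, h0⟩ := hg.2 x.2 h1
    obtain ⟨i, hi, hi2, hi3⟩ := h2 Q hQ
    have h3 := h i hi
    unfold codeN at h3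
    rw [bt_mkN hi2 fun j => hg.1 _, hi3, h0] at h3
    omega

end

end Pool.Agent.N443.K54
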