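import Pool.Agent.N443.K54.Ker
import Pool.Agent.N443.Core.Blk

/-! Meaning of the packed vectors. -/

set_option autoImplicit false
set_option maxRecDepth 100000
set_option exponentiation.threshold 700000
open Finset

namespace Pool.Agent.N443.K54

noncomputable section

open Pool.Agent.Y435.T7 (bt sb st cnd al d2 swp as2 as4 enc fld enc_congr enc_zero enc_succ enc_lt enc_add enc_mulc
  enc_prod enc_nest enc_testBit fld_testBit fld_lt fld_enc enc_fld fld_fld enc_inj land_ones swp_enc sb_lt bt01)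
open Pool.Agent.N443 (st_eq al_true cnd_and enc_const_succ enc_rep as2_eq0 as4_eq0 osum osum_enc kx_eq ky_eq kd_eq mul_out
  bt_le)

theorem ON640_eq : ON640 = 2 ^ 640 - 1 := rfl
theorem ON10240_eq : ON10240 = 2 ^ 10240 - 1 := rfl
theorem ON40960_eq : ON40960 = 2 ^ 40960 - 1 := rfl
theorem ON163840_eq : ON163840 = 2 ^ 163840 - 1 := rfl
theorem ON655360_eq : ON655360 = 2 ^ 655360 - 1 := rfl
theorem MK64_eq : MK64 = enc 640 6 (fun _ => 2 ^ 40 - 1) := by
  rw [enc_const_succ, enc_const_succ, enc_const_succ, enc_const_succ, enc_const_succ, enc_const_succ, enc_zero]; rfl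
theorem OS64_eq : OS64 = enc 640 6 (fun _ => 1) := by
  rw [enc_const_succ, enc_const_succ, enc_const_succ, enc_const_succ, enc_const_succ, enc_const_succ, enc_zero]; rfl
theorem ON16_eq : ON16 = enc 40 4 (fun _ => 1) := by
  rw [enc_const_succ, enc_const_succ, enc_const_succ, enc_const_succ, enc_zero]; rfl

/-- entry of the table: mask, block, row, column -/
def dg (m j x k : ℕ) : ℕ := fld 40 (XB m j) (k % 16 + 1024 * (k / 16) + 16 * x)

theorem dg_lt (m j x k : ℕ) : dg m j x k < 2 ^ 40 := fld_lt _ _ _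

theorem QB_eq (m q : ℕ) : QB m q = fld 655360 (PF m) q := by
  unfold QB
  rw [ON655360_eq, st_eq]
  exact land_ones (PF m) 655360 q

theorem XB_eq (m j : ℕ) : XB m j = fld 163840 (PF m) j := by
  unfold XB
  rw [ON163840_eq, st_eq, QB_eq]
  refine (land_ones _ 163840 (j % 4)).trans ?_
  refine (fld_fld (s := 163840) (k := 2) (PF m) (j / 4) (j % 4) (Nat.mod_lt _ (by norm_num))).trans ?_
  rw [show 2 ^ 2 * (j / 4) + j % 4 = j from Nat.div_add_mod j 4]

theorem kx_old (a k h : ℕ) : kx a k h = Nat.land (Nat.shiftRight a (640 * (k % 16 + (16 * h + 64 * (k / 16))))) (2 ^ 640 - 1) := by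
  have h1 : ka a (k / 16) h = fld 10240 a (h + 4 * (k / 16)) := by
    unfold ka
    rw [ON10240_eq]
    exact land_ones a 10240 (h + 4 * (k / 16))
  unfold kx
  rw [st_eq, ON640_eq]
  show Nat.land (Nat.shiftRight (ka a (k / 16) h) (640 * (k % 16))) (2 ^ 640 - 1) = _
  rw [h1, land_ones, land_ones]
  refine (fld_fld (s := 640) (k := 4) a (h + 4 * (k / 16)) (k % 16) (Nat.mod_lt _ (by norm_num))).trans ?_
  congr 1
  ring

theorem kb_eq (b q : ℕ) : kb b q = fld 40960 b q := by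
  unfold kb
  rw [ON40960_eq]
  exact land_ones b 40960 q

theorem XB_lt (m j : ℕ) : XB m j < 2 ^ (40 * 2 ^ 12) := by
  rw [XB_eq]; exact fld_lt _ _ _

theorem perm_ok : al 4096 (fun i => Nat.beq (sb 0 4 (sb 1 5 (sb 2 6 (sb 3 7 i))))
    (Nat.add (Nat.mod (Nat.div i 16) 16) (Nat.add (Nat.mul 16 (Nat.mod i 16)) (Nat.mul 256 (Nat.div i 256))))) = true := by
  decide +kernel

theorem tr_eq {X : ℕ} (hX : X < 2 ^ (40 * 2 ^ 12)) :
    tr X = enc 40 12 (fun i => fld 40 X (i / 16 % 16 + (16 * (i % 16) + 256 * (i / 256)))) := by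
  have hb : ∀ f : ℕ → ℕ, (∀ i < 2 ^ 12, f i < 2 ^ 40) → ∀ p q, p < q → q < 12 →
      swp 40 12 p q (enc 40 12 f) = enc 40 12 (fun i => f (sb p q i)) := fun f hf p q hp hq =>
    swp_enc (by norm_num) hp hq hf
  unfold tr
  rw [← enc_fld (s := 40) (n := 12) (by norm_num) hX]
  rw [hb _ (fun i _ => fld_lt _ _ _) 0 4 (by norm_num) (by norm_num)]
  rw [hb _ (fun i _ => fld_lt _ _ _) 1 5 (by norm_num) (by norm_num)]
  rw [hb _ (fun i _ => fld_lt _ _ _) 2 6 (by norm_num) (by norm_num)]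
  rw [hb _ (fun i _ => fld_lt _ _ _) 3 7 (by norm_num) (by norm_num)]
  rw [enc_fld (s := 40) (n := 12) (by norm_num) hX]
  refine enc_congr fun i hi => ?_
  have h := Nat.eq_of_beq_eq_true (al_true perm_ok hi)
  rw [h]
  rfl

theorem kx_tr (m j : ℕ) {k h : ℕ} (hk : k < 64) (hh : h < 4) :
    kx (XTs m j) k h = enc 40 4 (fun t => dg m j (t + 16 * h) k) := by
  rw [kx_old]
  unfold XTs
  rw [st_eq, st_eq, tr_eq (XB_lt m j)]
  have h1 := kx_eq (n := 8) (F := fun i => fld 40 (XB m j) (i / 16 % 16 + (16 * (i % 16) + 256 * (i / 256))))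
    (fun i _ => fld_lt _ _ _) (j := k % 16 + (16 * h + 64 * (k / 16))) (by omega)
  refine Eq.trans h1 (enc_congr fun t ht => ?_)
  have ht' : t < 16 := ht
  unfold dg
  congr 1
  omega

theorem ky_XB (m j k : ℕ) : ky (XBs m j) k = enc 640 6 (fun y => dg m j y k) := by
  unfold ky XBs
  rw [st_eq, st_eq, st_eq, MK64_eq, kb_eq]
  refine (ky_eq _ (k % 16) 6).trans (enc_congr fun y hy => ?_)
  have hy' : y < 64 := hy
  refine (fld_fld (s := 40) (k := 10) (XB m j) (k / 16) (k % 16 + 16 * y) (by omega)).trans ?_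
  unfold dg
  congr 1
  norm_num
  omega

theorem kd_XB (m j k : ℕ) {p : ℕ} (hp : p < 64) : kd (XBs m j) k p = dg m j p k := by
  unfold kd XBs
  rw [st_eq, st_eq, st_eq, kb_eq]
  refine (kd_eq _ (k % 16 + 16 * p)).trans ?_
  refine (fld_fld (s := 40) (k := 10) (XB m j) (k / 16) (k % 16 + 16 * p) (by omega)).trans ?_
  unfold dg
  congr 1
  norm_num
  omega

theorem OP_eq (m e f : ℕ) {K h : ℕ} (hK : K < 64) (hh : h < 4) : OP K (XTs m e) (XBs m f) h =
    enc 40 10 (fun i => (∑ k ∈ range K, dg m e (i % 16 + 16 * h) k * dg m f (i / 16) k)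
      + (dg m e (i % 16 + 16 * h) K + dg m f (i / 16) K)) := by
  unfold OP
  have h1 : osum (fun k => Nat.mul (kx (XTs m e) k h) (ky (XBs m f) k)) K = enc 40 10 (fun i => ∑ k ∈ range K,
      dg m e (i % 16 + 16 * h) k * dg m f (i / 16) k) := by
    refine osum_enc _ (fun k i => dg m e (i % 16 + 16 * h) k * dg m f (i / 16) k) K fun k hk => ?_
    rw [kx_tr m e (by omega) hh, ky_XB]
    refine (mul_out 6 _ _).trans (enc_congr fun i _ => mul_comm _ _)
  have h2 : Nat.mul (kx (XTs m e) K h) OS64 = enc 40 10 (fun i => dg m e (i % 16 + 16 * h) K) := by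
    rw [kx_tr m e hK hh, OS64_eq]
    refine (mul_out 6 _ _).trans (enc_congr fun i _ => one_mul _)
  have h3 : Nat.mul ON16 (ky (XBs m f) K) = enc 40 10 (fun i => dg m f (i / 16) K) := by
    rw [ky_XB, ON16_eq]
    refine (mul_out 6 _ _).trans (enc_congr fun i _ => mul_one _)
  rw [h1, h2, h3]
  show enc 40 10 _ + (enc 40 10 _ + enc 40 10 _) = _
  rw [enc_add, enc_add]

theorem OR_eq (m f z : ℕ) {p K h : ℕ} (hp : p < 64) (hK : K < 64) (hh : h < 4) : Nat.mul (OR K (XBs m f) (XTs m z) p h) OS64 =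
    enc 40 10 (fun i => (∑ k ∈ range K, dg m z (i % 16 + 16 * h) k * dg m f p k)
      + (dg m z (i % 16 + 16 * h) K + dg m f p K)) := by
  have h0 : OR K (XBs m f) (XTs m z) p h = enc 40 4 (fun t => (∑ k ∈ range K, dg m z (t + 16 * h) k * dg m f p k)
      + (dg m z (t + 16 * h) K + dg m f p K)) := by
    unfold OR
    have h1 : osum (fun k => Nat.mul (kx (XTs m z) k h) (kd (XBs m f) k p)) K = enc 40 4 (fun i => ∑ k ∈ range K,
        dg m z (i + 16 * h) k * dg m f p k) := by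
      refine osum_enc _ (fun k i => dg m z (i + 16 * h) k * dg m f p k) K fun k hk => ?_
      rw [kx_tr m z (by omega) hh, kd_XB _ _ _ hp]
      exact enc_mulc _ _ _ _
    have h3 : Nat.mul ON16 (kd (XBs m f) K p) = enc 40 4 (fun _ => dg m f p K) := by
      rw [kd_XB _ _ _ hp, ON16_eq]
      exact (enc_mulc _ _ _ _).trans (enc_congr fun i _ => one_mul _)
    rw [h1, kx_tr m z hK hh, h3]
    show enc 40 4 _ + (enc 40 4 _ + enc 40 4 _) = _
    rw [enc_add, enc_add]
  rw [h0, OS64_eq]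
  refine (mul_out 6 _ _).trans (enc_congr fun i _ => one_mul _)

/-- entries for a mask, a flag and a column -/
def uu (m f k : ℕ) : ℕ := dg m (f / 64) (f % 64) k

/-- the value of a mask and two flags -/
def F5 (m f1 f2 : ℕ) : ℕ := (∑ k ∈ range (NK m), uu m f1 k * uu m f2 k) + (uu m f1 (NK m) + uu m f2 (NK m))

theorem F5_comm (m f1 f2 : ℕ) : F5 m f1 f2 = F5 m f2 f1 := by
  unfold F5
  rw [add_comm (uu m f1 (NK m))]
  congr 1
  exact sum_congr rfl fun k _ => mul_comm _ _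

theorem NK_ok : al 32 (fun m => Nat.blt (NK m) 62) = true := by decide +kernel

theorem NK_lt {m : ℕ} (hm : m < 32) : NK m < 62 := by
  have := al_true NK_ok hm
  simpa [Nat.blt] using this

theorem uu_mk (m : ℕ) {j x : ℕ} (hx : x < 64) (k : ℕ) : uu m (x + 64 * j) k = dg m j x k := by
  unfold uu
  congr 1 <;> omega

/-- first coordinate of an index -/
def xi (i : ℕ) : ℕ := i % 16 + 16 * (i / 1024 % 4)
def yi (i : ℕ) : ℕ := i / 16 % 64

theorem BI_eq {s e f m' : ℕ} (hs : s ≤ 1) (hm : m' < 16) :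
    BI s e f m' = enc 40 12 (fun i => F5 (m' + 16 * s) (xi i + 64 * e) (yi i + 64 * f)) := by
  unfold BI
  rw [st_eq, st_eq, st_eq, as2_eq0]
  have hm32 : m' + 16 * s < 32 := by omega
  have hK := NK_lt hm32
  set m := m' + 16 * s with hmm
  have em : Nat.add m' (Nat.mul 16 s) = m := rfl
  rw [em]
  have h1 : enc 40960 2 (fun h => OP (NK m) (XTs m e) (XBs m f) h) = enc 40960 2 (fun h => enc 40 10 (fun i =>
      (∑ k ∈ range (NK m), dg m e (i % 16 + 16 * h) k * dg m f (i / 16) k)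
      + (dg m e (i % 16 + 16 * h) (NK m) + dg m f (i / 16) (NK m)))) :=
    enc_congr fun h hh => OP_eq m e f (by omega) hh
  rw [h1, show 40960 = 40 * 2 ^ 10 from rfl, enc_nest 40 10 _ 2]
  refine enc_congr fun i hi => ?_
  have hi' : i < 4096 := hi
  unfold F5
  have hx : xi i < 64 := by unfold xi; omega
  have hy : yi i < 64 := by unfold yi; omega
  simp only [uu_mk m hx, uu_mk m hy]
  have ex : i % 2 ^ 10 % 16 + 16 * (i / 2 ^ 10) = xi i := by
    unfold xi; norm_num; omega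
  have ey : i % 2 ^ 10 / 16 = yi i := by
    unfold yi; norm_num; omega
  rw [ex, ey]

theorem BR_eq {s e f p m' : ℕ} (hs : s ≤ 1) (he : e < 16) (hp : p < 64) :
    BR s e f p m' = enc 40 12 (fun i => F5 (e + 16 * s) (p + 64 * f) (xi i + 64 * m')) := by
  unfold BR
  rw [st_eq, st_eq, st_eq, as2_eq0]
  have hm32 : e + 16 * s < 32 := by omega
  have hK := NK_lt hm32
  set m := e + 16 * s with hmm
  have em : Nat.add e (Nat.mul 16 s) = m := rfl
  rw [em]
  have h1 : enc 40960 2 (fun h => Nat.mul (OR (NK m) (XBs m f) (XTs m m') p h) OS64) = enc 40960 2 (fun h => enc 40 10 (fun i =>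
      (∑ k ∈ range (NK m), dg m m' (i % 16 + 16 * h) k * dg m f p k)
      + (dg m m' (i % 16 + 16 * h) (NK m) + dg m f p (NK m)))) :=
    enc_congr fun h hh => OR_eq m f m' hp (by omega) hh
  rw [h1, show 40960 = 40 * 2 ^ 10 from rfl, enc_nest 40 10 _ 2]
  refine enc_congr fun i hi => ?_
  have hi' : i < 4096 := hi
  rw [F5_comm]
  unfold F5
  have hx : xi i < 64 := by unfold xi; omega
  simp only [uu_mk m hx, uu_mk m hp]
  have ex : i % 2 ^ 10 % 16 + 16 * (i / 2 ^ 10) = xi i := by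
    unfold xi; norm_num; omega
  rw [ex]

/-- the values of a step -/
def Bv (fl c i : ℕ) : ℕ := F5 (i / 4096 + 16 * bt 0 c) (xi i + 64 * (c / 2 % 16)) (yi i + 64 * (c / 32 % 16)) +
  (if fl = 0 then 0 else F5 (c / 2 % 16 + 16 * bt 0 c) (c / 512 % 64 + 64 * (c / 32 % 16)) (xi i + 64 * (i / 4096)))

theorem xi_mod (i : ℕ) : xi (i % 2 ^ 12) = xi i := by unfold xi; norm_num; omega
theorem yi_mod (i : ℕ) : yi (i % 2 ^ 12) = yi i := by unfold yi; norm_num; omega

theorem b16_eq (fl c : ℕ) : b16 fl c = enc 40 16 (Bv fl c) := by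
  unfold b16
  rw [as4_eq0]
  have e1 : Nat.land (Nat.shiftRight c 1) 15 = c / 2 % 16 := by
    show (c >>> 1) &&& (2 ^ 4 - 1) = _
    rw [Nat.and_two_pow_sub_one_eq_mod, Nat.shiftRight_eq_div_pow]
  have e2 : Nat.land (Nat.shiftRight c 5) 15 = c / 32 % 16 := by
    show (c >>> 5) &&& (2 ^ 4 - 1) = _
    rw [Nat.and_two_pow_sub_one_eq_mod, Nat.shiftRight_eq_div_pow]
  have e3 : Nat.land (Nat.shiftRight c 9) 63 = c / 512 % 64 := by
    show (c >>> 9) &&& (2 ^ 6 - 1) = _
    rw [Nat.and_two_pow_sub_one_eq_mod, Nat.shiftRight_eq_div_pow]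
  rw [e1, e2, e3]
  have key : ∀ A B : ℕ, Nat.add A (cnd (Nat.beq fl 0) 0 B) = A + (if fl = 0 then 0 else B) := by
    intro A B
    cases fl with
    | zero => rfl
    | succ n => rfl
  have h1 : enc 163840 4 (fun m' => Nat.add (BI (bt 0 c) (c / 2 % 16) (c / 32 % 16) m')
      (cnd (Nat.beq fl 0) 0 (BR (bt 0 c) (c / 2 % 16) (c / 32 % 16) (c / 512 % 64) m')))
      = enc 163840 4 (fun m' => enc 40 12 (fun i => F5 (m' + 16 * bt 0 c) (xi i + 64 * (c / 2 % 16)) (yi i + 64 * (c / 32 % 16)) +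
        (if fl = 0 then 0 else F5 (c / 2 % 16 + 16 * bt 0 c) (c / 512 % 64 + 64 * (c / 32 % 16)) (xi i + 64 * m')))) := by
    refine enc_congr fun m' hm => ?_
    rw [BI_eq (bt_le 0 c) hm, BR_eq (bt_le 0 c) (by omega) (by omega)]
    rw [key]
    by_cases h : fl = 0
    · rw [if_pos h, add_zero]
      exact enc_congr fun i _ => by rw [if_pos h, add_zero]
    · rw [if_neg h, enc_add]
      exact enc_congr fun i _ => by rw [if_neg h]
  rw [h1, show 163840 = 40 * 2 ^ 12 from rfl, enc_nest 40 12 _ 4]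
  refine enc_congr fun i _ => ?_
  unfold Bv
  rw [xi_mod, yi_mod, show i / 2 ^ 12 = i / 4096 by norm_num]

end

end Pool.Agent.N443.K54
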